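import Pool.Agent.MP_2c685a_gt.CoreThm

/-! The scale-averaged parallelogram law under an integrated bound for the remainder. -/

set_option autoImplicit false

open MeasureTheory Set Filter

namespace Pool.Agent.MP_2c685a_gt.Po

variable {U : Type*} [NormedAddCommGroup U] [NormedSpace ℝ U] [FiniteDimensional ℝ U]
  [MeasurableSpace U] [BorelSpace U] (ν : Measure U)

/-- a density with a first order expansion whose remainder is small in mean -/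
structure Exp (D : ℝ → U → ℝ) (u v : U → ℝ) (K₀ : ℝ) : Prop where
  Dc : Continuous (Function.uncurry D)
  iD : ∀ b : U → ℝ, Continuous b → Integrable (fun y => D (b y) y) ν
  pos : 0 < ∫ y, D 0 y ∂ν
  mu : Measurable u
  mv : Measurable v
  iu : Integrable (fun y => ‖y‖ * |u y|) ν
  iv : Integrable (fun y => ‖y‖ * |v y|) ν
  K0 : 0 ≤ K₀
  rem : ∀ τ : ℝ, 0 < τ → ∃ B : U → ℝ, Integrable B ν ∧ ∫ y, B y ∂ν ≤ K₀ * τ ^ 2 ∧
    ∀ y η, |η| ≤ τ * ‖y‖ → |D η y - D 0 y + η * u y + |η| * v y| ≤ B y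

/-- section function along a direction -/
noncomputable def sec (D : ℝ → U → ℝ) (b : U → ℝ) (s : ℝ) : ℝ := ∫ y, D (s * b y) y ∂ν

/-- linear term -/
noncomputable def ell (u b : U → ℝ) : ℝ := ∫ y, b y * u y ∂ν

/-- ridge term -/
noncomputable def Phi (v b : U → ℝ) : ℝ := ∫ y, |b y| * v y ∂ν

variable {ν} {D : ℝ → U → ℝ} {u v : U → ℝ} {K₀ : ℝ}

omit [NormedSpace ℝ U] [FiniteDimensional ℝ U] in
lemma int_aux {w b : U → ℝ} (hw : Measurable w) (iw : Integrable (fun y => ‖y‖ * |w y|) ν)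
    (hb : Continuous b) (hb1 : ∀ y, |b y| ≤ 2 * ‖y‖) :
    Integrable (fun y => b y * w y) ν ∧ |∫ y, b y * w y ∂ν| ≤ 2 * ∫ y, ‖y‖ * |w y| ∂ν := by
  have hle : ∀ y, ‖b y * w y‖ ≤ 2 * (‖y‖ * |w y|) := fun y => by
    rw [Real.norm_eq_abs, abs_mul, ← mul_assoc]
    exact mul_le_mul_of_nonneg_right (hb1 y) (abs_nonneg _)
  refine ⟨(iw.const_mul 2).mono' (hb.measurable.mul hw).aestronglyMeasurable
    (Eventually.of_forall hle), ?_⟩
  rw [← integral_const_mul]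
  exact norm_integral_le_of_norm_le (iw.const_mul 2) (Eventually.of_forall hle)

namespace Exp

omit [NormedSpace ℝ U] [FiniteDimensional ℝ U]

lemma int_ell (g : Exp ν D u v K₀) {b : U → ℝ} (hb : Continuous b) (hb1 : ∀ y, |b y| ≤ 2 * ‖y‖) :
    Integrable (fun y => b y * u y) ν := (int_aux g.mu g.iu hb hb1).1

lemma abs_ell_le (g : Exp ν D u v K₀) {b : U → ℝ} (hb : Continuous b)
    (hb1 : ∀ y, |b y| ≤ 2 * ‖y‖) : |ell ν u b| ≤ 2 * ∫ y, ‖y‖ * |u y| ∂ν :=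
  (int_aux g.mu g.iu hb hb1).2

lemma abs_Phi_le (g : Exp ν D u v K₀) {b : U → ℝ} (hb : Continuous b)
    (hb1 : ∀ y, |b y| ≤ 2 * ‖y‖) : |Phi ν v b| ≤ 2 * ∫ y, ‖y‖ * |v y| ∂ν :=
  (int_aux g.mv g.iv hb.abs (by simpa using hb1)).2

lemma sec_expand (g : Exp ν D u v K₀) {b : U → ℝ} (hb : Continuous b)
    (hb1 : ∀ y, |b y| ≤ 2 * ‖y‖) {s : ℝ} (hs : 0 < |s|) :
    |sec ν D b s - sec ν D b 0 + s * ell ν u b + |s| * Phi ν v b| ≤ 4 * K₀ * s ^ 2 := by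
  obtain ⟨B, iB, bB, pB⟩ := g.rem (2 * |s|) (by positivity)
  have i1 := g.iD (fun y => s * b y) (continuous_const.mul hb)
  have i2 := g.iD (fun y => 0 * b y) (continuous_const.mul hb)
  have i3 := g.int_ell hb hb1
  have i4 := (int_aux g.mv g.iv hb.abs (by simpa using hb1)).1
  have h := (integral_comb i1 i2 i3 i4 i4 1 (-1) s |s| 0).2
  have e : sec ν D b s - sec ν D b 0 + s * ell ν u b + |s| * Phi ν v b =
      ∫ y, (1 * D (s * b y) y + -1 * D (0 * b y) y + s * (b y * u y) + |s| * (|b y| * v y) +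
        0 * (|b y| * v y)) ∂ν := by
    rw [h]; unfold sec ell Phi; ring
  rw [e, ← Real.norm_eq_abs]
  refine le_trans (norm_integral_le_of_norm_le iB (Eventually.of_forall fun y => ?_))
    (le_trans bB (le_of_eq (by rw [mul_pow, sq_abs]; ring)))
  have := pB y (s * b y) (by
    rw [abs_mul]; nlinarith [hb1 y])
  rw [Real.norm_eq_abs]
  refine le_trans (le_of_eq ?_) this
  rw [abs_mul s, zero_mul]
  congr 1
  ring

omit [BorelSpace U] in
lemma dd_bound (g : Exp ν D u v K₀) {δ : ℝ} (hδ : 0 < δ) :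
    ∃ B : U → ℝ, Integrable B ν ∧ ∫ y, B y ∂ν ≤ 96 * K₀ * δ ^ 2 ∧
      ∀ y a, |a| ≤ δ * (2 * ‖y‖) → |dd (fun s => D s y) a| ≤ B y := by
  obtain ⟨B, iB, bB, pB⟩ := g.rem (4 * δ) (by positivity)
  refine ⟨fun y => 6 * B y, iB.const_mul 6, by rw [integral_const_mul]; linarith,
    fun y a ha => ?_⟩
  have h0 : 0 ≤ δ * ‖y‖ := by positivity
  have e2 : |2 * a| = 2 * |a| := by rw [abs_mul, abs_two]
  have h1 := abs_le.mp (pB y (2 * a) (by rw [e2]; linarith))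
  have h2 := abs_le.mp (pB y (-(2 * a)) (by rw [abs_neg, e2]; linarith))
  have h3 := abs_le.mp (pB y a (by linarith))
  have h4 := abs_le.mp (pB y (-a) (by rw [abs_neg]; linarith))
  rw [abs_neg] at h2 h4
  rw [e2] at h1 h2
  unfold dd
  rw [abs_le]
  constructor <;> linarith [h1.1, h1.2, h2.1, h2.2, h3.1, h3.2, h4.1, h4.2]

lemma abs_dd_sec (g : Exp ν D u v K₀) {b : U → ℝ} (hb : Continuous b)
    (hb1 : ∀ y, |b y| ≤ 2 * ‖y‖) {ε : ℝ} (hε : 0 < ε) :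
    |dd (sec ν D b) ε| ≤ 96 * K₀ * ε ^ 2 := by
  obtain ⟨B, iB, bB, pB⟩ := g.dd_bound hε
  have d2 := dd_integral ν (fun y s => D s y) b (fun s => g.iD _ (continuous_const.mul hb)) ε
  have e0 : sec ν D b = fun s => ∫ y, D (s * b y) y ∂ν := rfl
  rw [e0, d2.2, ← Real.norm_eq_abs]
  refine le_trans (norm_integral_le_of_norm_le iB (Eventually.of_forall fun y => ?_)) bB
  exact pB y _ (by rw [abs_mul, abs_of_pos hε]; exact mul_le_mul_of_nonneg_left (hb1 y) hε.le)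

end Exp

theorem coreP [SFinite ν] {Ω : Type*} [TopologicalSpace Ω] [MeasurableSpace Ω]
    [OpensMeasurableSpace Ω] [SecondCountableTopology Ω] (g : Exp ν D u v K₀)
    {p q : U → ℝ} (hp : Continuous p) (hq : Continuous q) (hp1 : ∀ y, |p y| ≤ ‖y‖)
    (hq1 : ∀ y, |q y| ≤ ‖y‖) {γ : ℝ} (hγ : 0 < γ)
    (hP : Phi ν v (fun y => p y + q y) ^ 2 + Phi ν v (fun y => p y - q y) ^ 2
      - 2 * Phi ν v p ^ 2 - 2 * Phi ν v q ^ 2 ≠ 0)
    (μ : Measure Ω) [SFinite μ] (η x z : Ω → ℝ) (hη : Continuous η) (hx : Continuous x)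
    (hz : Continuous z) (iη : Integrable η μ) (ix : Integrable x μ) (iz : Integrable z μ)
    (hcon0 : ∀ α β : ℝ, |α| ≤ 1 → |β| ≤ 1 →
      (∫ ω, |η ω - (α * x ω + β * z ω)| ∂μ) * (∫ y, D (α * p y + β * q y) y ∂ν) = γ) :
    False := by
  have hK₀ := g.K0
  set P := Phi ν v (fun y => p y + q y) ^ 2 + Phi ν v (fun y => p y - q y) ^ 2
      - 2 * Phi ν v p ^ 2 - 2 * Phi ν v q ^ 2 with hPdef
  set a₀ := ∫ y, D 0 y ∂ν with ha₀
  have hsec0 : ∀ b : U → ℝ, sec ν D b 0 = a₀ := by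
    intro b; simp only [sec, zero_mul, ha₀]
  have ha : 0 < a₀ := g.pos
  have hWu : 0 ≤ ∫ y, ‖y‖ * |u y| ∂ν := integral_nonneg fun y => by positivity
  have hWv : 0 ≤ ∫ y, ‖y‖ * |v y| ∂ν := integral_nonneg fun y => by positivity
  obtain ⟨K, hK0, hK1, hK2, hK3⟩ : ∃ K : ℝ, 0 ≤ K ∧ 2 * ∫ y, ‖y‖ * |u y| ∂ν ≤ K ∧
      2 * ∫ y, ‖y‖ * |v y| ∂ν ≤ K ∧ 4 * K₀ ≤ K :=
    ⟨2 * (∫ y, ‖y‖ * |u y| ∂ν) + 2 * (∫ y, ‖y‖ * |v y| ∂ν) + 4 * K₀, by positivity, by linarith,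
      by linarith, by linarith⟩
  set K₂ := 96 * K₀ with hK₂
  have hK₂0 : 0 ≤ K₂ := by positivity
  set M := γ * (20 * (54 * K ^ 3 / a₀ ^ 4 + 5 * K ^ 2 / a₀ ^ 3)) with hM
  have hM0 : 0 ≤ M := by positivity
  set C₁ := M + γ * K₂ / a₀ ^ 2 + 8 * γ * K ^ 2 / a₀ ^ 3 with hC₁
  have hC₁0 : 0 ≤ C₁ := by positivity
  set e := min (1 / 2) (a₀ / (12 * K + 1)) with he
  have he0 : 0 < e := lt_min (by norm_num) (by positivity)
  have he1 : e ≤ 1 / 2 := min_le_left _ _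
  have he2 : 3 * K * (2 * e) ≤ a₀ / 2 := by
    have h1 : e ≤ a₀ / (12 * K + 1) := min_le_right _ _
    rw [le_div_iff₀ (by positivity)] at h1
    nlinarith
  set B := 4 * γ * P / a₀ ^ 3 with hB
  have hB0 : 0 < |B| := abs_pos.2 (by rw [hB]; positivity)
  set CT := (96 + 12 * C₁) + γ / a₀ ^ 2 * (6 * K₂) + 6 * (8 + M) with hCT
  have hCT0 : 0 ≤ CT := by positivity
  set T := (CT + 1) / |B| with hT
  have hT0 : 0 ≤ T := by positivity
  set δ := e * Real.exp (-T) with hδ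
  have hδ0 : 0 < δ := by positivity
  have hδe : δ ≤ e := by
    rw [hδ]
    have : Real.exp (-T) ≤ 1 := Real.exp_le_one_iff.2 (by linarith)
    nlinarith
  have hδ1 : δ ≤ 1 := by linarith
  have hlog : Real.log (e / δ) = T := by
    rw [hδ, Real.exp_neg, show e / (e * (Real.exp T)⁻¹) = Real.exp T by field_simp, Real.log_exp]
  have hcon : ∀ α β : ℝ, |α| ≤ 1 → |β| ≤ 1 →
      |(∫ ω, |η ω - (α * x ω + β * z ω)| ∂μ) * (∫ y, D (α * p y + β * q y) y ∂ν) - γ|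
        ≤ δ ^ 3 * (a₀ / 2) := fun α β h1 h2 => by
    rw [hcon0 α β h1 h2, sub_self, abs_zero]
    positivity
  -- one direction
  have dir : ∀ (b : U → ℝ) (w : Ω → ℝ), Continuous b → (∀ y, |b y| ≤ 2 * ‖y‖) → Integrable w μ →
      (∀ s, |s| ≤ 1 → |(∫ ω, |η ω - s * w ω| ∂μ) * sec ν D b s - γ| ≤ δ ^ 3 * (a₀ / 2)) →
      ∀ ε, δ ≤ ε → ε ≤ e → Integrable (fun ω => tent (η ω) (ε * w ω)) μ ∧
        Integrable (fun y => dd (fun s => D s y) (ε * b y)) ν ∧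
        |(∫ ω, tent (η ω) (ε * w ω) ∂μ)
          + γ * (∫ y, dd (fun s => D s y) (ε * b y) ∂ν) / a₀ ^ 2
          - 4 * γ * ε ^ 2 * (ell ν u b ^ 2 + Phi ν v b ^ 2) / a₀ ^ 3|
            ≤ 8 * δ ^ 3 + M * ε ^ 3 ∧
        |∫ ω, tent (η ω) (ε * w ω) ∂μ| ≤ 8 * δ ^ 3 + C₁ * ε ^ 2 := by
    intro b w hb hb1 iw hh ε h1 h2
    have hε : 0 < ε := lt_of_lt_of_le hδ0 h1
    have d1 := dd_integral μ (fun ω s => |η ω - s|) w
      (fun s => (iη.sub (iw.const_mul s)).abs) ε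
    have d2 := dd_integral ν (fun y s => D s y) b (fun s => g.iD _ (continuous_const.mul hb)) ε
    have hl := le_trans (g.abs_ell_le hb hb1) hK1
    have hΦ := le_trans (g.abs_Phi_le hb hb1) hK2
    have s1 := dir_step (a := sec ν D b) (h := fun s => ∫ ω, |η ω - s * w ω| ∂μ) (ε := ε)
      (θ := δ ^ 3) (by rw [hsec0]; exact ha) hε (by linarith) hγ hl hΦ
      (by rw [hsec0]; nlinarith)
      (fun s h3 _ => le_trans (g.sec_expand hb hb1 (lt_of_lt_of_le hε h3))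
        (mul_le_mul_of_nonneg_right hK3 (sq_nonneg s)))
      (by rw [hsec0]; exact hh)
    have s2 := g.abs_dd_sec hb hb1 hε
    have e0 : sec ν D b = fun s => ∫ y, D (s * b y) y ∂ν := rfl
    rw [hsec0] at s1
    rw [e0, d2.2] at s1 s2
    rw [d1.2] at s1
    exact ⟨d1.1, d2.1, s1, dir_step2 ha hε (by linarith) hγ hl hΦ hM0 s2 s1⟩
  have n1 : ∀ y, |p y| ≤ 2 * ‖y‖ := fun y => by linarith [hp1 y, norm_nonneg y]
  have n2 : ∀ y, |q y| ≤ 2 * ‖y‖ := fun y => by linarith [hq1 y, norm_nonneg y]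
  have n3 : ∀ y, |p y + q y| ≤ 2 * ‖y‖ := fun y => by linarith [hp1 y, hq1 y, abs_add_le (p y) (q y)]
  have n4 : ∀ y, |p y - q y| ≤ 2 * ‖y‖ := fun y => by linarith [hp1 y, hq1 y, abs_sub (p y) (q y)]
  have D1 := dir p x hp n1 ix (fun s hs => by
    have := hcon s 0 hs (by simp)
    simpa only [zero_mul, add_zero, sec] using this)
  have D2 := dir q z hq n2 iz (fun s hs => by
    have := hcon 0 s (by simp) hs
    simpa only [zero_mul, zero_add, sec] using this)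
  have D3 := dir (fun y => p y + q y) (fun ω => x ω + z ω) (hp.add hq) n3 (ix.add iz)
    (fun s hs => by
      have := hcon s s hs hs
      simpa only [mul_add, sec] using this)
  have D4 := dir (fun y => p y - q y) (fun ω => x ω - z ω) (hp.sub hq) n4 (ix.sub iz)
    (fun s hs => by
      have := hcon s (-s) hs (by rwa [abs_neg])
      simpa only [mul_sub, sec, neg_mul, ← sub_eq_add_neg] using this)
  -- the measure side
  have tc : Continuous (Function.uncurry fun (ω : Ω) (a : ℝ) => tent (η ω) a) := by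
    have : (Function.uncurry fun (ω : Ω) (a : ℝ) => tent (η ω) a) = fun z : Ω × ℝ =>
        |η z.1 - 2 * z.2| + |η z.1 - -(2 * z.2)| - 2 * |η z.1 - z.2| - 2 * |η z.1 - -z.2|
          + 2 * |η z.1 - 0| := by
      funext z; rfl
    rw [this]
    fun_prop
  have S1 := integrated_scale μ (φ := fun ω a => tent (η ω) a) tc (fun ω => dd_zero _)
    (fun ω a => dd_even _ a) hx hz hδ0 hδe
    (B₁ := fun ω => tent (η ω) (δ * (x ω + z ω)) + tent (η ω) (δ * (x ω - z ω)))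
    (B₂ := fun ω => tent (η ω) (e * (x ω + z ω)) + tent (η ω) (e * (x ω - z ω)))
    ((D3 δ le_rfl hδe).1.add (D4 δ le_rfl hδe).1) ((D3 e hδe le_rfl).1.add (D4 e hδe le_rfl).1)
    (fun ω a h1 h2 => tent_le _ _ _ hδ0.le h1 h2) (fun ω a h1 h2 => tent_le _ _ _ he0.le h1 h2)
  have S1b : 3 * (∫ ω, tent (η ω) (δ * (x ω + z ω)) + tent (η ω) (δ * (x ω - z ω)) ∂μ) / δ ^ 2
      + 3 * (∫ ω, tent (η ω) (e * (x ω + z ω)) + tent (η ω) (e * (x ω - z ω)) ∂μ) / e ^ 2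
      ≤ 96 + 12 * C₁ := by
    rw [integral_add (D3 δ le_rfl hδe).1 (D4 δ le_rfl hδe).1,
      integral_add (D3 e hδe le_rfl).1 (D4 e hδe le_rfl).1]
    have b1 := (abs_le.1 (D3 δ le_rfl hδe).2.2.2).2
    have b2 := (abs_le.1 (D4 δ le_rfl hδe).2.2.2).2
    have b3 := (abs_le.1 (D3 e hδe le_rfl).2.2.2).2
    have b4 := (abs_le.1 (D4 e hδe le_rfl).2.2.2).2
    have q1 : δ ^ 3 ≤ δ ^ 2 := pow_le_pow_of_le_one hδ0.le hδ1 (by norm_num)
    have q2 : δ ^ 2 ≤ e ^ 2 := by gcongr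
    have r1 : 3 * ((∫ ω, tent (η ω) (δ * (x ω + z ω)) ∂μ)
        + ∫ ω, tent (η ω) (δ * (x ω - z ω)) ∂μ) / δ ^ 2 ≤ 48 + 6 * C₁ := by
      rw [div_le_iff₀ (by positivity)]; nlinarith
    have r2 : 3 * ((∫ ω, tent (η ω) (e * (x ω + z ω)) ∂μ)
        + ∫ ω, tent (η ω) (e * (x ω - z ω)) ∂μ) / e ^ 2 ≤ 48 + 6 * C₁ := by
      rw [div_le_iff₀ (by positivity)]; nlinarith
    linarith
  -- the section side
  have dc : Continuous (Function.uncurry fun (y : U) (a : ℝ) => dd (fun s => D s y) a) := by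
    have h0 := g.Dc
    have h1 : ∀ f : ℝ → ℝ, Continuous f → Continuous fun z : U × ℝ => D (f z.2) z.1 :=
      fun f hf => h0.comp ((hf.comp continuous_snd).prodMk continuous_fst)
    exact ((((h1 (fun a => 2 * a) (by fun_prop)).add (h1 (fun a => -(2 * a)) (by fun_prop))).sub
      (continuous_const.mul (h1 (fun a => a) (by fun_prop)))).sub
      (continuous_const.mul (h1 (fun a => -a) (by fun_prop)))).add
      (continuous_const.mul (h1 (fun _ => 0) (by fun_prop)))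
  have hsum : ∀ y, |p y| + |q y| ≤ 2 * ‖y‖ := fun y => by linarith [hp1 y, hq1 y]
  obtain ⟨B₁, iB₁, bB₁, pB₁⟩ := g.dd_bound hδ0
  obtain ⟨B₂, iB₂, bB₂, pB₂⟩ := g.dd_bound he0
  have S2 := integrated_scale ν (φ := fun y a => dd (fun s => D s y) a) dc
    (fun y => dd_zero _) (fun y a => dd_even _ a) hp hq hδ0 hδe iB₁ iB₂
    (fun y a h1 h2 => pB₁ y a (by
      rw [abs_of_nonneg h1]
      exact le_trans h2 (mul_le_mul_of_nonneg_left (hsum y) hδ0.le)))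
    (fun y a h1 h2 => pB₂ y a (by
      rw [abs_of_nonneg h1]
      exact le_trans h2 (mul_le_mul_of_nonneg_left (hsum y) he0.le)))
  have S2b : 3 * (∫ y, B₁ y ∂ν) / δ ^ 2 + 3 * (∫ y, B₂ y ∂ν) / e ^ 2 ≤ 6 * K₂ := by
    have r1 : 3 * (∫ y, B₁ y ∂ν) / δ ^ 2 ≤ 3 * K₂ := by
      rw [div_le_iff₀ (by positivity)]; linarith
    have r2 : 3 * (∫ y, B₂ y ∂ν) / e ^ 2 ≤ 3 * K₂ := by
      rw [div_le_iff₀ (by positivity)]; linarith
    linarith
  have hell : ell ν u (fun y => p y + q y) = ell ν u p + ell ν u q ∧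
      ell ν u (fun y => p y - q y) = ell ν u p - ell ν u q := by
    have i1 := g.int_ell hp n1
    have i2 := g.int_ell hq n2
    unfold ell
    rw [← integral_add i1 i2, ← integral_sub i1 i2]
    constructor
    · congr 1; funext y; ring
    · congr 1; funext y; ring
  have F := final_step (A := γ / a₀ ^ 2) (B := B) (C₃ := 6 * (8 + M)) hδ0 hδe (by linarith)
    S1.1 S2.1 (le_trans S1.2 S1b) (le_trans S2.2 S2b) (by positivity) (by
      intro ε h1 h2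
      have hε : 0 < ε := lt_of_lt_of_le hδ0 h1
      obtain ⟨i1, j1, k1, -⟩ := D1 ε h1 h2
      obtain ⟨i2, j2, k2, -⟩ := D2 ε h1 h2
      obtain ⟨i3, j3, k3, -⟩ := D3 ε h1 h2
      obtain ⟨i4, j4, k4, -⟩ := D4 ε h1 h2
      rw [pdef_integral μ (fun ω a => tent (η ω) a) x z ε i3 i4 i1 i2,
        pdef_integral ν (fun y a => dd (fun s => D s y) a) p q ε j3 j4 j1 j2]
      rw [hell.1] at k3
      rw [hell.2] at k4
      have q1 : δ ^ 3 ≤ ε ^ 3 := by gcongr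
      set X1 := ∫ ω, tent (η ω) (ε * x ω) ∂μ
      set X2 := ∫ ω, tent (η ω) (ε * z ω) ∂μ
      set X3 := ∫ ω, tent (η ω) (ε * (x ω + z ω)) ∂μ
      set X4 := ∫ ω, tent (η ω) (ε * (x ω - z ω)) ∂μ
      set Y1 := ∫ y, dd (fun s => D s y) (ε * p y) ∂ν
      set Y2 := ∫ y, dd (fun s => D s y) (ε * q y) ∂ν
      set Y3 := ∫ y, dd (fun s => D s y) (ε * (p y + q y)) ∂ν
      set Y4 := ∫ y, dd (fun s => D s y) (ε * (p y - q y)) ∂ν
      set l1 := ell ν u p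
      set l2 := ell ν u q
      have eq : X3 + X4 - 2 * X1 - 2 * X2 + γ / a₀ ^ 2 * (Y3 + Y4 - 2 * Y1 - 2 * Y2) - B * ε ^ 2
          = (X3 + γ * Y3 / a₀ ^ 2 - 4 * γ * ε ^ 2 *
              ((l1 + l2) ^ 2 + Phi ν v (fun y => p y + q y) ^ 2) / a₀ ^ 3)
            + (X4 + γ * Y4 / a₀ ^ 2 - 4 * γ * ε ^ 2 *
              ((l1 - l2) ^ 2 + Phi ν v (fun y => p y - q y) ^ 2) / a₀ ^ 3)
            - 2 * (X1 + γ * Y1 / a₀ ^ 2 - 4 * γ * ε ^ 2 * (l1 ^ 2 + Phi ν v p ^ 2) / a₀ ^ 3)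
            - 2 * (X2 + γ * Y2 / a₀ ^ 2 - 4 * γ * ε ^ 2 * (l2 ^ 2 + Phi ν v q ^ 2) / a₀ ^ 3) := by
        rw [hB, hPdef]; ring
      rw [eq]
      rw [abs_le] at k1 k2 k3 k4 ⊢
      constructor <;> linarith [k1.1, k1.2, k2.1, k2.2, k3.1, k3.2, k4.1, k4.2])
  rw [hlog, hT, mul_div_cancel₀ _ hB0.ne'] at F
  linarith

end Pool.Agent.MP_2c685a_gt.Po
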