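import Pool.Agent.MP_2c685a_gt.Po.Uniq

/-! The cosine transform of a density that is exponential-linear on a cone is not Hilbertian. -/

set_option autoImplicit false

open MeasureTheory Set Module Filter Topology
open scoped ENNReal Pointwise

namespace Pool.Agent.MP_2c685a_gt.Po

lemma exists_bilin {V : Type*} [AddCommGroup V] [Module ℝ V] (Φ : V → ℝ)
    (hadd : ∀ x y, Φ (x + y) ≤ Φ x + Φ y) (hsmul : ∀ (c : ℝ) x, Φ (c • x) = |c| * Φ x)
    (hz : ∀ x, Φ x = 0 → x = 0)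
    (hpar : ∀ x y, Φ (x + y) ^ 2 + Φ (x - y) ^ 2 - 2 * Φ x ^ 2 - 2 * Φ y ^ 2 = 0) :
    ∃ B : V →ₗ[ℝ] V →ₗ[ℝ] ℝ, (∀ x y, B x y = B y x) ∧ ∀ x, B x x = Φ x ^ 2 := by
  let : NormedAddCommGroup V := AddGroupNorm.toNormedAddCommGroup
    { toFun := Φ
      map_zero' := by simpa using hsmul 0 0
      add_le' := hadd
      neg' := fun x => by simpa using hsmul (-1) x
      eq_zero_of_map_eq_zero' := hz }
  let : NormedSpace ℝ V := ⟨fun c x => (hsmul c x).le⟩
  let : InnerProductSpace ℝ V := InnerProductSpace.ofNorm ℝ fun x y => by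
    have := hpar x y
    change Φ (x + y) * Φ (x + y) + Φ (x - y) * Φ (x - y) = 2 * (Φ x * Φ x + Φ y * Φ y)
    linarith
  exact ⟨innerₗ V, fun x y => real_inner_comm y x, fun x => real_inner_self_eq_norm_sq x⟩

variable {U : Type*} [NormedAddCommGroup U] [InnerProductSpace ℝ U] [FiniteDimensional ℝ U]
  [MeasurableSpace U] [BorelSpace U] (ν : Measure U)

/-- the cosine transform of a density -/
noncomputable def Ph (v : U → ℝ) (w : U) : ℝ := ∫ y, |inner ℝ w y| * v y ∂ν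

variable {ν} {v : U → ℝ}

lemma Ph_int (hv : Measurable v) (h0 : ∀ y, 0 ≤ v y) (hi : Integrable (fun y => ‖y‖ * v y) ν)
    (w : U) : Integrable (fun y => |inner ℝ w y| * v y) ν := by
  refine (hi.const_mul ‖w‖).mono' (Measurable.aestronglyMeasurable (by fun_prop))
    (Eventually.of_forall fun y => ?_)
  rw [Real.norm_of_nonneg (mul_nonneg (abs_nonneg _) (h0 y)), ← mul_assoc]
  exact mul_le_mul_of_nonneg_right (abs_real_inner_le_norm w y) (h0 y)

omit [FiniteDimensional ℝ U] [BorelSpace U] in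
lemma Ph_nonneg (h0 : ∀ y, 0 ≤ v y) (w : U) : 0 ≤ Ph ν v w :=
  integral_nonneg fun y => mul_nonneg (abs_nonneg _) (h0 y)

omit [FiniteDimensional ℝ U] [BorelSpace U] in
lemma Ph_smul (c : ℝ) (w : U) : Ph ν v (c • w) = |c| * Ph ν v w := by
  unfold Ph
  rw [← integral_const_mul]
  simp only [real_inner_smul_left, abs_mul, mul_assoc]

lemma Ph_add (hv : Measurable v) (h0 : ∀ y, 0 ≤ v y) (hi : Integrable (fun y => ‖y‖ * v y) ν)
    (w w' : U) : Ph ν v (w + w') ≤ Ph ν v w + Ph ν v w' := by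
  unfold Ph
  rw [← integral_add (Ph_int hv h0 hi w) (Ph_int hv h0 hi w')]
  refine integral_mono (Ph_int hv h0 hi _) ((Ph_int hv h0 hi w).add (Ph_int hv h0 hi w'))
    fun y => ?_
  simp only [inner_add_left, ← add_mul]
  exact mul_le_mul_of_nonneg_right (abs_add_le _ _) (h0 y)

lemma Ph_lint (hv : Measurable v) (h0 : ∀ y, 0 ≤ v y) (hi : Integrable (fun y => ‖y‖ * v y) ν)
    (w : U) : ∫⁻ y, ENNReal.ofReal (v y) * ‖inner ℝ w y‖ₑ ∂ν = ENNReal.ofReal (Ph ν v w) := by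
  unfold Ph
  rw [ofReal_integral_eq_lintegral_ofReal (Ph_int hv h0 hi w)
    (Eventually.of_forall fun y => mul_nonneg (abs_nonneg _) (h0 y))]
  refine lintegral_congr fun y => ?_
  rw [Real.enorm_eq_ofReal_abs, ← ENNReal.ofReal_mul (h0 y), mul_comm]

variable [ν.IsAddHaarMeasure]

lemma Ph_pos (hv : Measurable v) (h0 : ∀ y, 0 ≤ v y) (hi : Integrable (fun y => ‖y‖ * v y) ν)
    {y₀ : U} {r : ℝ} (hr : 0 < r) (hp : ∀ y, ‖y - y₀‖ < r → 0 < v y) {w : U} (hw : w ≠ 0) :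
    0 < Ph ν v w := by
  unfold Ph
  rw [integral_pos_iff_support_of_nonneg (fun y => mul_nonneg (abs_nonneg _) (h0 y))
    (Ph_int hv h0 hi w)]
  have hO : IsOpen {y : U | ‖y - y₀‖ < r ∧ inner ℝ w y ≠ (0 : ℝ)} :=
    IsOpen.and (isOpen_lt (by fun_prop) continuous_const)
      (isOpen_ne_fun (by fun_prop) continuous_const)
  have hn : 0 < ‖w‖ := norm_pos_iff.mpr hw
  refine lt_of_lt_of_le (hO.measure_pos ν ?_) (measure_mono fun y hy => ?_)
  · by_cases h : inner ℝ w y₀ = (0 : ℝ)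
    · refine ⟨y₀ + (r / (2 * ‖w‖)) • w, ?_, ?_⟩
      · rw [add_sub_cancel_left, norm_smul, Real.norm_of_nonneg (by positivity)]
        have : r / (2 * ‖w‖) * ‖w‖ = r / 2 := by field_simp
        linarith
      · rw [inner_add_right, h, real_inner_smul_right, real_inner_self_eq_norm_sq]
        positivity
    · exact ⟨y₀, by simpa using hr, h⟩
  · exact (mul_pos (abs_pos.mpr hy.2) (hp y hy.1)).ne'

lemma refl_fix (hv : Measurable v) (h0 : ∀ y, 0 ≤ v y) (hev : ∀ y, v (-y) = v y)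
    (hi : Integrable (fun y => ‖y‖ * v y) ν) {g y₀ y₁ : U} {β r : ℝ} (hβ : 0 < β)
    (hloc : ∀ y, ‖y - y₀‖ < r → ∀ t : ℝ, 0 < t →
      v (t • y) = β * Real.exp (-(t * inner ℝ g y)))
    (h1 : ‖y₁ - y₀‖ < r) (hg : 0 < inner ℝ g y₁) (R : U →ₗ[ℝ] U) (hRR : ∀ w, R (R w) = w)
    (hR : ∀ w, Ph ν v (R w) = Ph ν v w) (hfix : ∀ w, inner ℝ (R w) y₁ = inner ℝ w y₁) :
    R g = g := by
  set S : U →ₗ[ℝ] U := LinearMap.adjoint R with hS
  have hSi : ∀ w y, inner ℝ w (S y) = inner ℝ (R w) y := fun w y =>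
    LinearMap.adjoint_inner_right R w y
  have hSS : ∀ y, S (S y) = y := fun y =>
    ext_inner_left ℝ fun w => by rw [hSi, hSi, hRR]
  have hS1 : S y₁ = y₁ := ext_inner_left ℝ fun w => by rw [hSi, hfix]
  have hSc : Continuous S := S.continuous_of_finiteDimensional
  have hdet : LinearMap.det S * LinearMap.det S = 1 := by
    rw [← map_mul, show S * S = 1 from LinearMap.ext hSS, map_one]
  have hmap : ν.map S = ν := by
    have h2 : LinearMap.det S ≠ 0 := left_ne_zero_of_mul_eq_one hdet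
    have h3 : |LinearMap.det S| = 1 := by
      rcases mul_self_eq_one_iff.mp hdet with h | h <;> simp [h]
    rw [Measure.map_linearMap_addHaar_eq_smul_addHaar ν h2, abs_inv, h3]
    simp
  have m1 : Measurable fun y => ENNReal.ofReal (v y) := by fun_prop
  have m2 : Measurable fun y => ENNReal.ofReal (v (S y)) := m1.comp hSc.measurable
  have m3 : ∀ w : U, Measurable fun y : U => ‖inner ℝ w y‖ₑ := fun w => by fun_prop
  have e1 : ∀ w, ∫⁻ y, ‖inner ℝ w y‖ₑ ∂(ν.withDensity fun y => ENNReal.ofReal (v y)) =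
      ENNReal.ofReal (Ph ν v w) := fun w => by
    rw [lintegral_withDensity_eq_lintegral_mul _ m1 (m3 w), ← Ph_lint hv h0 hi]
    rfl
  have e2 : ∀ w, ∫⁻ y, ‖inner ℝ w y‖ₑ ∂(ν.withDensity fun y => ENNReal.ofReal (v (S y))) =
      ENNReal.ofReal (Ph ν v w) := fun w => by
    rw [lintegral_withDensity_eq_lintegral_mul _ m2 (m3 w), ← hR, ← Ph_lint hv h0 hi]
    conv_lhs => rw [← hmap]
    rw [lintegral_map (m2.mul (m3 w)) hSc.measurable]
    refine lintegral_congr fun y => ?_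
    simp only [Pi.mul_apply, hSS, hSi]
  by_contra hne
  have hδ : R g - g ≠ 0 := sub_ne_zero.mpr hne
  have hδ1 : inner ℝ (R g - g) y₁ = (0 : ℝ) := by rw [inner_sub_left, hfix, sub_self]
  set O : Set U := {y | ‖y - y₀‖ < r ∧ ‖S y - y₀‖ < r ∧ 0 < inner ℝ g y ∧
    0 < inner ℝ (R g - g) y} with hO
  have hOo : IsOpen O :=
    IsOpen.and (isOpen_lt (by fun_prop) continuous_const)
      (IsOpen.and (isOpen_lt (by fun_prop) continuous_const)
        (IsOpen.and (isOpen_lt continuous_const (by fun_prop))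
          (isOpen_lt continuous_const (by fun_prop))))
  have hOn : O.Nonempty := by
    have a1 : ∀ᶠ ε : ℝ in 𝓝 0, ‖y₁ + ε • (R g - g) - y₀‖ < r :=
      ContinuousAt.eventually_lt (by fun_prop) continuousAt_const (by simpa using h1)
    have a2 : ∀ᶠ ε : ℝ in 𝓝 0, ‖S (y₁ + ε • (R g - g)) - y₀‖ < r :=
      ContinuousAt.eventually_lt (by fun_prop) continuousAt_const (by simpa [hS1] using h1)
    have a3 : ∀ᶠ ε : ℝ in 𝓝 0, 0 < inner ℝ g (y₁ + ε • (R g - g)) :=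
      ContinuousAt.eventually_lt continuousAt_const (by fun_prop) (by simpa using hg)
    have a4 : ∀ᶠ ε : ℝ in 𝓝[>] 0, 0 < ε := self_mem_nhdsWithin
    obtain ⟨ε, b4, b1, b2, b3⟩ :=
      (a4.and ((a1.and (a2.and a3)).filter_mono nhdsWithin_le_nhds)).exists
    refine ⟨_, b1, b2, b3, ?_⟩
    rw [inner_add_right, hδ1, real_inner_smul_right, real_inner_self_eq_norm_sq]
    have := norm_pos_iff.mpr hδ
    positivity
  set Γ : Set U := ⋃ t : ℝ, ⋃ _ : t ≠ 0, t • O with hΓ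
  have hΓo : IsOpen Γ := isOpen_iUnion fun t => isOpen_iUnion fun ht => hOo.smul₀ ht
  have hmem : ∀ x, x ∈ Γ ↔ ∃ t : ℝ, t ≠ 0 ∧ ∃ y ∈ O, t • y = x := by
    intro x
    simp only [hΓ, mem_iUnion, mem_smul_set, exists_prop]
  have hΓn : Γ.Nonempty := by
    obtain ⟨y, hy⟩ := hOn
    exact ⟨y, (hmem y).mpr ⟨1, one_ne_zero, y, hy, one_smul _ _⟩⟩
  have hU := uniq _ _ (fun w => by rw [e1]; exact ENNReal.ofReal_ne_top)
    (fun w => (e1 w).trans (e2 w).symm) hΓo.measurableSet (fun t x ht hx => by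
      obtain ⟨s, hs, y, hy, rfl⟩ := (hmem x).mp hx
      exact (hmem _).mpr ⟨t * s, mul_ne_zero ht hs, y, hy, mul_smul t s y⟩) g
  have hfin : ∫⁻ y in Γ, ‖inner ℝ g y‖ₑ ∂(ν.withDensity fun y => ENNReal.ofReal (v (S y))) ≠ ⊤ :=
    ne_top_of_le_ne_top (by rw [e2]; exact ENNReal.ofReal_ne_top)
      (setLIntegral_le_lintegral _ _)
  rw [setLIntegral_withDensity_eq_setLIntegral_mul _ m2 (m3 g) hΓo.measurableSet] at hU hfin
  rw [setLIntegral_withDensity_eq_setLIntegral_mul _ m1 (m3 g) hΓo.measurableSet] at hU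
  refine (setLIntegral_strict_mono hΓo.measurableSet (hΓo.measure_pos ν hΓn).ne'
    (m1.mul (m3 g)) hfin (Eventually.of_forall fun x hx => ?_)).ne' hU
  obtain ⟨t, ht, y, ⟨y1, y2, y3, y4⟩, rfl⟩ := (hmem x).mp hx
  have habs : ∀ z : U, v (t • z) = v (|t| • z) := by
    intro z
    rcases abs_choice t with h | h
    · rw [h]
    · rw [h, neg_smul, hev]
  have hta : 0 < |t| := abs_pos.mpr ht
  have hlt : v (S (t • y)) < v (t • y) := by
    rw [map_smul, habs, habs, hloc _ y1 _ hta, hloc _ y2 _ hta, hSi]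
    rw [inner_sub_left] at y4
    have : |t| * inner ℝ g y < |t| * inner ℝ (R g) y := mul_lt_mul_of_pos_left (by linarith) hta
    exact mul_lt_mul_of_pos_left (Real.exp_lt_exp.mpr (by linarith)) hβ
  simp only [Pi.mul_apply]
  refine (ENNReal.mul_lt_mul_iff_left ?_ enorm_ne_top).mpr
    ((ENNReal.ofReal_lt_ofReal_iff_of_nonneg (h0 _)).mpr hlt)
  rw [real_inner_smul_right]
  exact enorm_ne_zero.mpr (mul_ne_zero ht y3.ne')

theorem nonHilb (hd : 2 ≤ finrank ℝ U) (hv : Measurable v) (h0 : ∀ y, 0 ≤ v y)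
    (hev : ∀ y, v (-y) = v y) (hi : Integrable (fun y => ‖y‖ * v y) ν) {g y₀ : U} {β r : ℝ}
    (hβ : 0 < β) (hr : 0 < r) (hg : 0 < inner ℝ g y₀)
    (hloc : ∀ y, ‖y - y₀‖ < r → ∀ t : ℝ, 0 < t →
      v (t • y) = β * Real.exp (-(t * inner ℝ g y))) :
    ∃ w₁ w₂ : U, ‖w₁‖ ≤ 1 ∧ ‖w₂‖ ≤ 1 ∧
      Ph ν v (w₁ + w₂) ^ 2 + Ph ν v (w₁ - w₂) ^ 2 - 2 * Ph ν v w₁ ^ 2 - 2 * Ph ν v w₂ ^ 2 ≠ 0 := by
  by_contra hcon
  push Not at hcon
  have hp : ∀ y, ‖y - y₀‖ < r → 0 < v y := fun y hy => by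
    have := hloc y hy 1 one_pos
    rw [one_smul] at this
    rw [this]
    positivity
  have hpos : ∀ w, w ≠ 0 → 0 < Ph ν v w := fun w hw => Ph_pos hv h0 hi hr hp hw
  have hpar : ∀ x y, Ph ν v (x + y) ^ 2 + Ph ν v (x - y) ^ 2 - 2 * Ph ν v x ^ 2 -
      2 * Ph ν v y ^ 2 = 0 := by
    intro x y
    have hM : 0 < ‖x‖ + ‖y‖ + 1 := by positivity
    have hs : ∀ z : U, ‖z‖ ≤ ‖x‖ + ‖y‖ + 1 → ‖(‖x‖ + ‖y‖ + 1)⁻¹ • z‖ ≤ 1 := fun z hz => by
      rw [norm_smul, Real.norm_of_nonneg (by positivity), inv_mul_le_iff₀ hM, mul_one]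
      exact hz
    have := hcon _ _ (hs x (by linarith [norm_nonneg y])) (hs y (by linarith [norm_nonneg x]))
    rw [← smul_add, ← smul_sub, Ph_smul, Ph_smul, Ph_smul, Ph_smul] at this
    have hc : |(‖x‖ + ‖y‖ + 1)⁻¹| ^ 2 ≠ 0 := by positivity
    apply mul_left_cancel₀ hc
    linarith
  obtain ⟨B, hBs, hB⟩ := exists_bilin (Ph ν v) (Ph_add hv h0 hi) Ph_smul
    (fun x hx => by by_contra h; exact (hpos x h).ne' hx) hpar
  have key : ∀ y₁ u : U, ‖y₁ - y₀‖ < r → 0 < inner ℝ g y₁ → inner ℝ u y₁ = (0 : ℝ) →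
      B u g = 0 := by
    intro y₁ u h1 h2 h3
    by_cases hu : u = 0
    · simp [hu]
    have hBu : B u u ≠ 0 := by rw [hB]; exact (pow_pos (hpos u hu) 2).ne'
    set R : U →ₗ[ℝ] U := LinearMap.id - (2 / B u u) • (B u).smulRight u with hRdef
    have hRa : ∀ w, R w = w - (2 / B u u * B u w) • u := fun w => by
      simp [hRdef, mul_smul]
    have hfix := refl_fix hv h0 hev hi hβ hloc h1 h2 R (fun w => by
        rw [hRa, hRa, map_sub, map_smul, smul_eq_mul, sub_sub, ← add_smul]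
        have : 2 / B u u * B u w + 2 / B u u * (B u w - 2 / B u u * B u w * B u u) = 0 := by
          field_simp
          ring
        rw [this, zero_smul, sub_zero])
      (fun w => by
        rw [← pow_left_inj₀ (Ph_nonneg h0 _) (Ph_nonneg h0 _) two_ne_zero, ← hB, ← hB, hRa]
        simp only [map_sub, map_smul, LinearMap.sub_apply, LinearMap.smul_apply, smul_eq_mul,
          hBs w u]
        field_simp
        ring)
      (fun w => by rw [hRa, inner_sub_left, real_inner_smul_left, h3, mul_zero, sub_zero])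
    rw [hRa, sub_eq_self, smul_eq_zero, mul_eq_zero] at hfix
    rcases hfix with (h | h) | h
    · exact absurd h (div_ne_zero two_ne_zero hBu)
    · exact h
    · exact absurd h hu
  have hy0 : y₀ ≠ 0 := by rintro rfl; simp at hg
  have hg0 : g ≠ 0 := by rintro rfl; simp at hg
  obtain ⟨z, hz0, hz⟩ : ∃ z : U, z ≠ 0 ∧ inner ℝ y₀ z = (0 : ℝ) := by
    have a1 := Submodule.finrank_add_finrank_orthogonal (ℝ ∙ y₀)
    rw [finrank_span_singleton hy0] at a1
    obtain ⟨z, hz⟩ := Module.finrank_pos_iff_exists_ne_zero.mp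
      (show 0 < finrank ℝ (ℝ ∙ y₀)ᗮ by omega)
    exact ⟨z, fun h => hz (Subtype.ext h),
      Submodule.mem_orthogonal_singleton_iff_inner_right.mp z.2⟩
  have a1 : ∀ᶠ ε : ℝ in 𝓝 0, ‖y₀ + ε • z - y₀‖ < r :=
    ContinuousAt.eventually_lt (by fun_prop) continuousAt_const (by simpa using hr)
  have a3 : ∀ᶠ ε : ℝ in 𝓝 0, 0 < inner ℝ g (y₀ + ε • z) :=
    ContinuousAt.eventually_lt continuousAt_const (by fun_prop) (by simpa using hg)
  have a4 : ∀ᶠ ε : ℝ in 𝓝[>] 0, 0 < ε := self_mem_nhdsWithin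
  obtain ⟨ε, b4, b1, b3⟩ := (a4.and ((a1.and a3).filter_mono nhdsWithin_le_nhds)).exists
  have n1 : 0 < ‖y₀‖ := norm_pos_iff.mpr hy0
  have n2 : 0 < ‖z‖ := norm_pos_iff.mpr hz0
  have hz' : inner ℝ z y₀ = (0 : ℝ) := by rw [real_inner_comm, hz]
  set c : ℝ := inner ℝ g y₀ / (ε * ‖z‖ ^ 2 * ‖y₀‖ ^ 2) with hc
  set u₂ : U := c • ((ε * ‖z‖ ^ 2) • y₀ - (‖y₀‖ ^ 2) • z) with hu₂
  have k2 := key (y₀ + ε • z) u₂ b1 b3 (by
    simp only [hu₂, real_inner_smul_left, inner_sub_left, inner_add_right, real_inner_smul_right,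
      hz, hz', real_inner_self_eq_norm_sq]
    ring)
  have k1 := key y₀ (g - u₂) (by simpa using hr) hg (by
    simp only [hu₂, real_inner_smul_left, inner_sub_left, hz', real_inner_self_eq_norm_sq, hc]
    field_simp
    ring)
  rw [map_sub, LinearMap.sub_apply, k2, sub_zero, hB] at k1
  exact (pow_pos (hpos g hg0) 2).ne' k1

end Pool.Agent.MP_2c685a_gt.Po
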