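import Mathlib

/-! Piecewise linear norms: ridges, one-sided slopes and slabs. -/

set_option autoImplicit false

open MeasureTheory Set Module Filter Topology

namespace Pool.Agent.MP_2c685a_gt.Po

section Geo

variable {E : Type*} [NormedAddCommGroup E] [InnerProductSpace ℝ E]

/-- `N` is the maximum of the linear forms given by a finite symmetric set -/
structure IsMax (A : Finset E) (N : E → ℝ) : Prop where
  le : ∀ a ∈ A, ∀ x, inner ℝ a x ≤ N x
  ex : ∀ x, ∃ a ∈ A, inner ℝ a x = N x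
  neg : ∀ a ∈ A, -a ∈ A

lemma generic (F : Finset E) : ∃ z : E, ∀ b ∈ F, b ≠ 0 → inner ℝ b z ≠ (0 : ℝ) := by
  have : Finite {b : E // b ∈ F ∧ b ≠ 0} :=
    (F.finite_toSet.subset fun b (hb : b ∈ F ∧ b ≠ 0) => hb.1).to_subtype
  obtain ⟨z, hz⟩ := Module.Dual.exists_forall_ne_zero_of_forall_exists
    (ι := {b : E // b ∈ F ∧ b ≠ 0}) (K := ℝ) (fun i => innerₗ E i.1)
    (fun i => ⟨i.1, by simpa using i.2.2⟩)
  exact ⟨z, fun b hb h0 => hz ⟨b, hb, h0⟩⟩

variable {A : Finset E} {N : E → ℝ}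

lemma IsMax.N_neg (h : IsMax A N) (x : E) : N (-x) = N x := by
  have key : ∀ y, N (-y) ≤ N y := fun y => by
    obtain ⟨a, ha, e⟩ := h.ex (-y)
    have := h.le _ (h.neg a ha) y
    rw [inner_neg_left] at this
    rw [inner_neg_right] at e
    linarith
  exact le_antisymm (key x) (by simpa using key (-x))

lemma IsMax.tie (h : IsMax A N) (x z : E) (hx : 0 < N x) :
    ∃ s : ℝ, ∃ a₁ ∈ A, ∃ a₂ ∈ A, a₁ ≠ a₂ ∧ inner ℝ a₁ (z + s • x) = N (z + s • x) ∧
      inner ℝ a₂ (z + s • x) = N (z + s • x) := by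
  by_contra hcon
  push Not at hcon
  set T : E → Set ℝ := fun a => ⋂ a' ∈ A, {s : ℝ | inner ℝ a' (z + s • x) ≤ inner ℝ a (z + s • x)}
    with hT
  have hTc : ∀ a, IsClosed (T a) := fun a =>
    isClosed_biInter fun a' _ => isClosed_le (by fun_prop) (by fun_prop)
  have hTm : ∀ a ∈ A, ∀ s, s ∈ T a ↔ inner ℝ a (z + s • x) = N (z + s • x) := by
    intro a ha s
    simp only [hT, mem_iInter, mem_ofPred_eq]
    constructor
    · intro h1
      obtain ⟨b, hb, e⟩ := h.ex (z + s • x)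
      exact le_antisymm (h.le a ha _) (e ▸ h1 b hb)
    · intro h1 b hb
      exact h1 ▸ h.le b hb _
  obtain ⟨a₀, ha₀, e₀⟩ := h.ex (z + (0 : ℝ) • x)
  classical
  have hcompl : (T a₀)ᶜ = ⋃ a ∈ A.erase a₀, T a := by
    ext s
    simp only [mem_compl_iff, mem_iUnion, exists_prop, Finset.mem_erase]
    constructor
    · intro h1
      obtain ⟨b, hb, e⟩ := h.ex (z + s • x)
      refine ⟨b, ⟨?_, hb⟩, (hTm b hb s).mpr e⟩
      rintro rfl
      exact h1 ((hTm b hb s).mpr e)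
    · rintro ⟨b, ⟨hne, hb⟩, h1⟩ h2
      exact hcon s b hb a₀ ha₀ hne ((hTm b hb s).mp h1) ((hTm a₀ ha₀ s).mp h2)
  have hclo : IsClopen (T a₀) := ⟨hTc a₀, by
    rw [← isClosed_compl_iff, hcompl]
    exact isClosed_biUnion_finset fun a _ => hTc a⟩
  have hall : T a₀ = univ := hclo.eq_univ ⟨0, (hTm a₀ ha₀ 0).mpr e₀⟩
  obtain ⟨b, hb, eb⟩ := h.ex x
  set s : ℝ := inner ℝ a₀ z / N x + 1 with hs
  have h1 := h.le b hb (z + s • x)
  have h2 := h.le _ (h.neg b hb) (z + (-s) • x)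
  rw [← (hTm a₀ ha₀ s).mp (hall ▸ mem_univ _)] at h1
  rw [← (hTm a₀ ha₀ (-s)).mp (hall ▸ mem_univ _)] at h2
  simp only [inner_add_right, real_inner_smul_right, inner_neg_left, eb] at h1 h2
  have h3 : s * N x = inner ℝ a₀ z + N x := by rw [hs]; field_simp
  linarith

theorem ridge [FiniteDimensional ℝ E] (h : IsMax A N) (hpos : ∀ x, x ≠ 0 → 0 < N x)
    (hd : 2 ≤ finrank ℝ E) :
    ∃ e x₀ a₁ a₂ : E, ‖e‖ = 1 ∧ inner ℝ e x₀ = (0 : ℝ) ∧ x₀ ≠ 0 ∧ a₁ ∈ A ∧ a₂ ∈ A ∧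
      inner ℝ a₁ x₀ = N x₀ ∧ inner ℝ a₂ x₀ = N x₀ ∧ inner ℝ a₂ e < inner ℝ a₁ e ∧
      ∀ a ∈ A, inner ℝ a x₀ = N x₀ → ∃ s : ℝ, a = a₁ + s • e := by
  classical
  obtain ⟨b₀, hb₀⟩ := Module.finrank_pos_iff_exists_ne_zero.mp (show 0 < finrank ℝ E by omega)
  obtain ⟨x, hx⟩ := generic (insert b₀ ((A ×ˢ A).image fun p => p.2 - p.1))
  have hx0 : x ≠ 0 := by
    rintro rfl
    exact hx b₀ (Finset.mem_insert_self _ _) hb₀ (by simp)
  obtain ⟨u₀, hu0, hu⟩ : ∃ u : E, u ≠ 0 ∧ inner ℝ x u = (0 : ℝ) := by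
    have a1 := Submodule.finrank_add_finrank_orthogonal (ℝ ∙ x)
    rw [finrank_span_singleton hx0] at a1
    obtain ⟨z, hz⟩ := Module.finrank_pos_iff_exists_ne_zero.mp
      (show 0 < finrank ℝ (ℝ ∙ x)ᗮ by omega)
    exact ⟨z, fun h => hz (Subtype.ext h),
      Submodule.mem_orthogonal_singleton_iff_inner_right.mp z.2⟩
  obtain ⟨z, hz⟩ := generic (insert u₀ ((A ×ˢ A ×ˢ A).image fun p =>
    (inner ℝ (p.2.2 - p.1) x : ℝ) • (p.2.1 - p.1) - (inner ℝ (p.2.1 - p.1) x : ℝ) • (p.2.2 - p.1)))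
  obtain ⟨s, a₁, h1, a₂, h2, hne, e1, e2⟩ := h.tie x z (hpos x hx0)
  have hn : 0 < ‖a₁ - a₂‖ := norm_pos_iff.mpr (sub_ne_zero.mpr hne)
  refine ⟨‖a₁ - a₂‖⁻¹ • (a₁ - a₂), z + s • x, a₁, a₂, ?_, ?_, ?_, h1, h2, e1, e2, ?_, ?_⟩
  · rw [norm_smul, norm_inv, norm_norm, inv_mul_cancel₀ hn.ne']
  · rw [real_inner_smul_left, inner_sub_left, e1, e2, sub_self, mul_zero]
  · intro h0
    refine hz u₀ (Finset.mem_insert_self _ _) hu0 ?_
    have : inner ℝ u₀ (z + s • x) = (0 : ℝ) := by rw [h0, inner_zero_right]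
    rwa [inner_add_right, real_inner_smul_right, real_inner_comm x u₀, hu, mul_zero,
      add_zero] at this
  · rw [← sub_pos, ← inner_sub_left, real_inner_smul_right, real_inner_self_eq_norm_sq]
    positivity
  · intro a₃ h3 e3
    have hb : inner ℝ (a₂ - a₁) x ≠ (0 : ℝ) :=
      hx _ (Finset.mem_insert_of_mem (Finset.mem_image.mpr ⟨(a₁, a₂), by simp [h1, h2], rfl⟩))
        (sub_ne_zero.mpr hne.symm)
    have hu : (inner ℝ (a₃ - a₁) x : ℝ) • (a₂ - a₁) - (inner ℝ (a₂ - a₁) x : ℝ) • (a₃ - a₁) = 0 := by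
      by_contra hne0
      refine hz _ (Finset.mem_insert_of_mem (Finset.mem_image.mpr
        ⟨(a₁, a₂, a₃), by simp [h1, h2, h3], rfl⟩)) hne0 ?_
      have k2 : inner ℝ (a₂ - a₁) (z + s • x) = (0 : ℝ) := by rw [inner_sub_left, e1, e2, sub_self]
      have k3 : inner ℝ (a₃ - a₁) (z + s • x) = (0 : ℝ) := by rw [inner_sub_left, e1, e3, sub_self]
      rw [inner_add_right, real_inner_smul_right] at k2 k3
      rw [inner_sub_left, real_inner_smul_left, real_inner_smul_left]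
      linear_combination (inner ℝ (a₃ - a₁) x) * k2 - (inner ℝ (a₂ - a₁) x) * k3
    refine ⟨-(inner ℝ (a₃ - a₁) x / inner ℝ (a₂ - a₁) x * ‖a₁ - a₂‖), ?_⟩
    rw [smul_smul, neg_mul, mul_assoc, mul_inv_cancel₀ hn.ne', mul_one, neg_smul, ← smul_neg,
      neg_sub, ← sub_eq_iff_eq_add', div_eq_inv_mul, mul_smul, sub_eq_zero.mp hu, smul_smul,
      inv_mul_cancel₀ hb, one_smul]

/-- `up e x` is the largest slope in direction `e` among the forms that are active at `x` -/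
structure UpOk (A : Finset E) (N : E → ℝ) (up : E → E → ℝ) : Prop where
  ge : ∀ e x, ∀ a ∈ A, inner ℝ a x = N x → inner ℝ a e ≤ up e x
  ex : ∀ e x, ‖e‖ ≤ 1 → ∃ a ∈ A, inner ℝ a x = N x ∧ inner ℝ a e = up e x

lemma exists_up [MeasurableSpace E] [BorelSpace E] [FiniteDimensional ℝ E] (h : IsMax A N)
    (hN : Continuous N) {L : ℝ} (hL : ∀ a ∈ A, ‖a‖ ≤ L) :
    ∃ up : E → E → ℝ, UpOk A N up ∧ ∀ e, Measurable (up e) := by
  classical
  have hne : A.Nonempty := by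
    obtain ⟨a, ha, -⟩ := h.ex 0
    exact ⟨a, ha⟩
  refine ⟨fun e => A.sup' hne fun a x => if inner ℝ a x = N x then inner ℝ a e else -L,
    ⟨fun e x a ha hx => ?_, fun e x he => ?_⟩, fun e => ?_⟩
  · simp only [Finset.sup'_apply]
    exact le_trans (by rw [if_pos hx]) (Finset.le_sup'
      (fun a => if inner ℝ a x = N x then inner ℝ a e else -L) ha)
  · simp only [Finset.sup'_apply]
    obtain ⟨a, ha, ea⟩ := Finset.exists_mem_eq_sup' hne
      (fun a => if inner ℝ a x = N x then inner ℝ a e else -L)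
    by_cases hx : inner ℝ a x = N x
    · exact ⟨a, ha, hx, by rw [ea, if_pos hx]⟩
    · obtain ⟨b, hb, eb⟩ := h.ex x
      refine ⟨b, hb, eb, le_antisymm (le_trans (by rw [if_pos eb]) (Finset.le_sup'
        (fun a => if inner ℝ a x = N x then inner ℝ a e else -L) hb)) ?_⟩
      rw [ea, if_neg hx]
      have h1 := (abs_le.mp (abs_real_inner_le_norm b e)).1
      have h2 : ‖b‖ * ‖e‖ ≤ L * 1 :=
        mul_le_mul (hL b hb) he (norm_nonneg _) (le_trans (norm_nonneg _) (hL b hb))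
      linarith
  · refine Finset.measurable_sup' hne fun a _ => Measurable.ite ?_ measurable_const measurable_const
    exact (isClosed_eq (by fun_prop) hN).measurableSet

variable {up : E → E → ℝ} {L : ℝ}

lemma inner_bd (hL : ∀ a ∈ A, ‖a‖ ≤ L) {a e : E} (ha : a ∈ A) (he : ‖e‖ ≤ 1) :
    |inner ℝ a e| ≤ L := by
  have h2 : ‖a‖ * ‖e‖ ≤ L * 1 :=
    mul_le_mul (hL a ha) he (norm_nonneg _) (le_trans (norm_nonneg _) (hL a ha))
  linarith [abs_real_inner_le_norm a e]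

lemma UpOk.bd (u : UpOk A N up) (hL : ∀ a ∈ A, ‖a‖ ≤ L) {e : E} (he : ‖e‖ ≤ 1) (x : E) :
    |up e x| ≤ L := by
  obtain ⟨a, ha, -, e2⟩ := u.ex e x he
  rw [← e2]
  exact inner_bd hL ha he

lemma UpOk.neg (u : UpOk A N up) (h : IsMax A N) {e : E} (he : ‖e‖ ≤ 1) (x : E) :
    up e (-x) = up (-e) x := by
  have key : ∀ e x : E, ‖e‖ ≤ 1 → up e (-x) ≤ up (-e) x := fun e x he => by
    obtain ⟨a, ha, e1, e2⟩ := u.ex e (-x) he
    have := u.ge (-e) x _ (h.neg a ha) (by rw [← h.N_neg, ← e1]; simp)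
    rw [← e2]
    simpa using this
  exact le_antisymm (key e x he) (by simpa using key (-e) (-x) (by simpa using he))

lemma UpOk.congr (u : UpOk A N up) {e x x' : E} (he : ‖e‖ ≤ 1)
    (hx : ∀ a ∈ A, inner ℝ a x = N x ↔ inner ℝ a x' = N x') : up e x = up e x' := by
  apply le_antisymm
  · obtain ⟨a, ha, e1, e2⟩ := u.ex e x he
    exact e2 ▸ u.ge e x' a ha ((hx a ha).mp e1)
  · obtain ⟨a, ha, e1, e2⟩ := u.ex e x' he
    exact e2 ▸ u.ge e x a ha ((hx a ha).mpr e1)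

lemma UpOk.step (u : UpOk A N up) (h : IsMax A N) (hL : ∀ a ∈ A, ‖a‖ ≤ L) {e : E}
    (he : ‖e‖ ≤ 1) (x : E) {η : ℝ} (hη : 0 ≤ η) :
    |N (x + η • e) - N x| ≤ L * η ∧ (N (x + η • e) = N x + η * up e x ∨
      ∃ a ∈ A, ∃ a' ∈ A, 0 < inner ℝ (a - a') x ∧ inner ℝ (a - a') x ≤ 2 * L * η) := by
  obtain ⟨a, ha, e1, e2⟩ := u.ex e x he
  obtain ⟨b, hb, eb⟩ := h.ex (x + η • e)
  have h1 := h.le a ha (x + η • e)
  have h2 := h.le b hb x
  rw [inner_add_right, real_inner_smul_right] at h1 eb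
  have ba := abs_le.mp (inner_bd hL ha he)
  have bb := abs_le.mp (inner_bd hL hb he)
  have c1 := mul_le_mul_of_nonneg_left ba.1 hη
  have c2 := mul_le_mul_of_nonneg_left bb.2 hη
  refine ⟨abs_le.mpr ⟨by linarith, by linarith⟩, ?_⟩
  by_cases hbx : inner ℝ b x = N x
  · left
    have := mul_le_mul_of_nonneg_left (u.ge e x b hb hbx) hη
    rw [e2] at h1
    linarith
  · right
    have := lt_of_le_of_ne h2 hbx
    refine ⟨a, ha, b, hb, ?_, ?_⟩ <;> rw [inner_sub_left] <;> linarith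

/-- Near a ridge point the set of active forms is constant along the hyperplane. -/
lemma IsMax.near (h : IsMax A N) {e x₀ a₁ : E} (h1 : a₁ ∈ A) (e1 : inner ℝ a₁ x₀ = N x₀)
    (hall : ∀ a ∈ A, inner ℝ a x₀ = N x₀ → ∃ s : ℝ, a = a₁ + s • e) :
    ∃ r : ℝ, 0 < r ∧ ∀ x, ‖x - x₀‖ < r → inner ℝ e x = (0 : ℝ) → ∀ t : ℝ, 0 < t →
      N (t • x) = t * inner ℝ a₁ x ∧
      ∀ a ∈ A, inner ℝ a (t • x) = N (t • x) ↔ inner ℝ a x₀ = N x₀ := by
  have hev : ∀ᶠ x in 𝓝 x₀, ∀ a ∈ A, inner ℝ a x₀ ≠ N x₀ → inner ℝ a x < inner ℝ a₁ x := by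
    rw [Finset.eventually_all]
    intro a ha
    by_cases hx : inner ℝ a x₀ = N x₀
    · exact Eventually.of_forall fun _ h' => absurd hx h'
    · have : ∀ᶠ x in 𝓝 x₀, inner ℝ a x < inner ℝ a₁ x :=
        ContinuousAt.eventually_lt (by fun_prop) (by fun_prop)
          (by rw [e1]; exact lt_of_le_of_ne (h.le a ha _) hx)
      exact this.mono fun x hx' _ => hx'
  obtain ⟨r, hr, hb⟩ := Metric.eventually_nhds_iff.mp hev
  refine ⟨r, hr, fun x hx hex t ht => ?_⟩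
  have hx' := hb (show dist x x₀ < r by rwa [dist_eq_norm])
  have same : ∀ a ∈ A, inner ℝ a x₀ = N x₀ → inner ℝ a x = inner ℝ a₁ x := by
    intro a ha hm
    obtain ⟨s, rfl⟩ := hall a ha hm
    rw [inner_add_left, real_inner_smul_left, hex, mul_zero, add_zero]
  have hN : N (t • x) = t * inner ℝ a₁ x := by
    apply le_antisymm
    · obtain ⟨b, hb, eb⟩ := h.ex (t • x)
      rw [← eb, real_inner_smul_right]
      refine mul_le_mul_of_nonneg_left ?_ ht.le
      by_cases hm : inner ℝ b x₀ = N x₀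
      · exact (same b hb hm).le
      · exact (hx' b hb hm).le
    · rw [← real_inner_smul_right]
      exact h.le a₁ h1 _
  refine ⟨hN, fun a ha => ?_⟩
  rw [hN, real_inner_smul_right]
  refine ⟨fun h2 => ?_, fun h2 => by rw [same a ha h2]⟩
  by_contra hm
  exact (mul_lt_mul_of_pos_left (hx' a ha hm) ht).ne h2

end Geo

section Slab

variable {U : Type*} [NormedAddCommGroup U] [NormedSpace ℝ U] [FiniteDimensional ℝ U]
  [MeasurableSpace U] [BorelSpace U] (ν : Measure U) [ν.IsAddHaarMeasure]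

lemma exp_int {c : ℝ} (hc : 0 < c) : Integrable (fun y : U => Real.exp (-(c * ‖y‖))) ν := by
  set k := finrank ℝ U + 1 with hk
  have h1 := (integrable_one_add_norm (E := U) (μ := ν) (r := (k : ℝ))
    (by rw [hk]; push_cast; linarith)).const_mul (k.factorial * Real.exp c / c ^ k)
  refine h1.mono' (Continuous.aestronglyMeasurable (by fun_prop))
    (Eventually.of_forall fun y => ?_)
  have h0 : 0 < 1 + ‖y‖ := by positivity
  have h2 := Real.pow_div_factorial_le_exp (c * (1 + ‖y‖)) (by positivity) k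
  rw [Real.norm_of_nonneg (Real.exp_pos _).le, Real.rpow_neg h0.le, Real.rpow_natCast,
    Real.exp_neg, ← div_eq_mul_inv, div_div, ← one_div,
    div_le_div_iff₀ (Real.exp_pos _) (by positivity), one_mul, ← mul_pow, mul_assoc,
    ← Real.exp_add]
  rw [div_le_iff₀ (by positivity), mul_add, mul_one] at h2
  rw [mul_add, mul_one]
  linarith

lemma slab {c : ℝ} (hc : 0 < c) (l : U →ₗ[ℝ] ℝ) (hl : l ≠ 0) :
    ∃ C : ℝ, 0 ≤ C ∧ ∀ r : ℝ, 0 < r →
      ∫ y, {y : U | |l y| ≤ r * ‖y‖}.indicator (fun y => Real.exp (-(c * ‖y‖))) y ∂ν ≤ C * r := by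
  obtain ⟨v, hv⟩ : ∃ v, l v = 1 := by
    obtain ⟨w, hw⟩ := DFunLike.ne_iff.mp hl
    exact ⟨(l w)⁻¹ • w, by rw [map_smul, smul_eq_mul, inv_mul_cancel₀ hw]⟩
  have hc' : 0 < c / (1 + ‖v‖) := by positivity
  set W := ∫ y : U, Real.exp (-(c / (1 + ‖v‖) * ‖y‖)) ∂ν with hW
  set W₀ := ∫ y : U, Real.exp (-(c * ‖y‖)) ∂ν with hW₀
  have hW0 : 0 ≤ W := integral_nonneg fun y => (Real.exp_pos _).le
  have hW00 : 0 ≤ W₀ := integral_nonneg fun y => (Real.exp_pos _).le
  have hlc : Continuous l := l.continuous_of_finiteDimensional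
  refine ⟨W + W₀, by positivity, fun r hr => ?_⟩
  have hS : MeasurableSet {y : U | |l y| ≤ r * ‖y‖} :=
    (isClosed_le (by fun_prop) (by fun_prop)).measurableSet
  have iS := (exp_int ν hc).indicator hS
  rcases le_total 1 r with h1 | h1
  · refine le_trans (integral_mono iS (exp_int ν hc) fun y =>
      indicator_le_self' (fun _ _ => (Real.exp_pos _).le) y) ?_
    nlinarith
  set T : U →ₗ[ℝ] U := LinearMap.transvection ((r⁻¹ - 1) • l) v with hT
  have hdet : LinearMap.det T = r⁻¹ := by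
    rw [hT, LinearMap.transvection.det]
    simp [hv]
  have hTc : Continuous T := T.continuous_of_finiteDimensional
  have hmap := Measure.map_linearMap_addHaar_eq_smul_addHaar ν (f := T)
    (by rw [hdet]; positivity)
  rw [hdet, inv_inv, abs_of_pos hr] at hmap
  have hg : Continuous fun y : U => Real.exp (-(c / (1 + ‖v‖) * ‖y‖)) := by fun_prop
  have i1 : Integrable (fun y : U => Real.exp (-(c / (1 + ‖v‖) * ‖y‖))) (ν.map T) := by
    rw [hmap]
    exact (exp_int ν hc').smul_measure ENNReal.ofReal_ne_top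
  have e1 : ∫ y : U, Real.exp (-(c / (1 + ‖v‖) * ‖T y‖)) ∂ν = r * W := by
    rw [← integral_map hTc.aemeasurable hg.aestronglyMeasurable, hmap, integral_smul_measure,
      ENNReal.toReal_ofReal hr.le, smul_eq_mul]
  refine le_trans (integral_mono iS (i1.comp_measurable hTc.measurable) fun y => ?_) ?_
  · by_cases hy : y ∈ {y : U | |l y| ≤ r * ‖y‖}
    · rw [indicator_of_mem hy]
      simp only [Function.comp_apply]
      apply Real.exp_le_exp.mpr
      have h2 : 1 ≤ r⁻¹ := (one_le_inv₀ hr).mpr h1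
      have h3 : ‖T y‖ ≤ (1 + ‖v‖) * ‖y‖ := by
        rw [hT, LinearMap.transvection.apply]
        refine le_trans (norm_add_le _ _) ?_
        rw [norm_smul, LinearMap.smul_apply, smul_eq_mul, Real.norm_eq_abs, abs_mul,
          abs_of_nonneg (by linarith)]
        have h4 : (r⁻¹ - 1) * |l y| ≤ r⁻¹ * (r * ‖y‖) :=
          mul_le_mul (by linarith) hy (abs_nonneg _) (by positivity)
        rw [← mul_assoc, inv_mul_cancel₀ hr.ne', one_mul] at h4
        nlinarith [norm_nonneg v]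
      have h5 := mul_le_mul_of_nonneg_left h3 hc'.le
      rw [← mul_assoc, div_mul_cancel₀ _ (by positivity)] at h5
      linarith
    · rw [indicator_of_notMem hy]
      exact (Real.exp_pos _).le
  · simp only [Function.comp_apply]
    rw [e1]
    nlinarith

end Slab

end Pool.Agent.MP_2c685a_gt.Po
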