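import Pool.Agent.MP_2c685a_gt.Lit
import Pool.Agent.MP_2c685a_gt.Po.CoreP
import Pool.Agent.MP_2c685a_gt.Po.Ridge
import Pool.Agent.MP_2c685a_gt.Po.NonHilb

/-! The reciprocal section function of a symmetric polytope is not a cosine transform. -/

set_option autoImplicit false

open MeasureTheory Set Module Filter Topology

namespace Pool.Agent.MP_2c685a_gt.Po

lemma lin_exp {c x : ℝ} (hc : 0 < c) (hx : 0 ≤ x) :
    x * Real.exp (-(c * x)) ≤ 4 / c * Real.exp (-(c / 2 * x)) ∧
      x ^ 2 * Real.exp (-(c * x)) ≤ 16 / c ^ 2 * Real.exp (-(c / 2 * x)) := by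
  have h1 : x ≤ 4 / c * Real.exp (c / 4 * x) := by
    have := Real.add_one_le_exp (c / 4 * x)
    rw [div_mul_eq_mul_div, le_div_iff₀ hc]
    linarith
  have h2 : Real.exp (c / 4 * x) * Real.exp (-(c * x)) ≤ Real.exp (-(c / 2 * x)) := by
    rw [← Real.exp_add]
    apply Real.exp_le_exp.mpr
    nlinarith [mul_nonneg hc.le hx]
  have h3 : Real.exp (c / 4 * x) ^ 2 * Real.exp (-(c * x)) = Real.exp (-(c / 2 * x)) := by
    rw [sq, ← Real.exp_add, ← Real.exp_add]
    congr 1
    ring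
  have h0 := Real.exp_pos (-(c * x))
  constructor
  · calc x * Real.exp (-(c * x)) ≤ 4 / c * Real.exp (c / 4 * x) * Real.exp (-(c * x)) := by gcongr
      _ ≤ _ := by rw [mul_assoc]; gcongr
  · calc x ^ 2 * Real.exp (-(c * x))
        ≤ (4 / c * Real.exp (c / 4 * x)) ^ 2 * Real.exp (-(c * x)) := by gcongr
      _ = _ := by rw [mul_pow, mul_assoc, h3]; ring

variable {E : Type*} [NormedAddCommGroup E] [InnerProductSpace ℝ E]
variable {A : Finset E} {N : E → ℝ} {up : E → E → ℝ} {L c C : ℝ}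

/-- odd part of the slope -/
noncomputable def al (up : E → E → ℝ) (e x : E) : ℝ := (up e x - up (-e) x) / 2

/-- even part of the slope -/
noncomputable def be (up : E → E → ℝ) (e x : E) : ℝ := (up e x + up (-e) x) / 2

lemma be_nonneg (u : UpOk A N up) (h : IsMax A N) (e x : E) : 0 ≤ be up e x := by
  obtain ⟨a, ha, ea⟩ := h.ex x
  have h1 := u.ge e x a ha ea
  have h2 := u.ge (-e) x a ha ea
  rw [inner_neg_right] at h2
  unfold be
  linarith

lemma step2 (u : UpOk A N up) (h : IsMax A N) (hL : ∀ a ∈ A, ‖a‖ ≤ L) {e : E} (he : ‖e‖ = 1)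
    (x : E) (η : ℝ) :
    |N (x + η • e) - N x| ≤ L * |η| ∧ |η * al up e x + |η| * be up e x| ≤ L * |η| ∧
      (N (x + η • e) - N x = η * al up e x + |η| * be up e x ∨
        ∃ a ∈ A, ∃ a' ∈ A, 0 < inner ℝ (a - a') x ∧ inner ℝ (a - a') x ≤ 2 * L * |η|) := by
  have he' : ‖-e‖ ≤ 1 := by rw [norm_neg, he]
  rcases le_total 0 η with h0 | h0
  · obtain ⟨s1, s2⟩ := u.step h hL he.le x h0
    have e1 : η * al up e x + η * be up e x = η * up e x := by unfold al be; ring
    rw [abs_of_nonneg h0, e1]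
    refine ⟨s1, ?_, s2.imp_left fun h1 => by linarith⟩
    rw [abs_mul, abs_of_nonneg h0, mul_comm]
    exact mul_le_mul_of_nonneg_right (u.bd hL he.le x) h0
  · obtain ⟨s1, s2⟩ := u.step h hL he' x (neg_nonneg.mpr h0)
    have e1 : η * al up e x + -η * be up e x = -η * up (-e) x := by unfold al be; ring
    rw [neg_smul, smul_neg, neg_neg] at s1 s2
    rw [abs_of_nonpos h0, e1]
    refine ⟨s1, ?_, s2.imp_left fun h1 => by linarith⟩
    rw [abs_mul, abs_of_nonneg (neg_nonneg.mpr h0), mul_comm]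
    exact mul_le_mul_of_nonneg_right (u.bd hL he' x) (neg_nonneg.mpr h0)

variable {U : Type*} [NormedAddCommGroup U] [InnerProductSpace ℝ U] [FiniteDimensional ℝ U]
  [MeasurableSpace U] [BorelSpace U] [MeasurableSpace E] [BorelSpace E]

theorem poly_exp (ν : Measure U) [ν.IsAddHaarMeasure] (u : UpOk A N up) (h : IsMax A N)
    (hm : ∀ e, Measurable (up e)) (hL : ∀ a ∈ A, ‖a‖ ≤ L) (hN : IsNrm N c C)
    (j : U →ₗᵢ[ℝ] E) {e : E} (he : ‖e‖ = 1) (hj : ∀ y, inner ℝ e (j y) = 0) :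
    ∃ K₀ : ℝ, Exp ν (fun η y => Real.exp (-N (j y + η • e)))
      (fun y => al up e (j y) * Real.exp (-N (j y)))
      (fun y => be up e (j y) * Real.exp (-N (j y))) K₀ := by
  classical
  have hc := hN.cpos
  have hc2 : 0 < c / 2 := by positivity
  have hNc := hN.continuous
  have hjc : Continuous j := j.continuous
  have hL0 : 0 ≤ L := by
    obtain ⟨a, ha, -⟩ := h.ex 0
    exact le_trans (norm_nonneg _) (hL a ha)
  have low : ∀ (y : U) (η : ℝ), c * ‖y‖ ≤ N (j y + η • e) := fun y η => by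
    refine le_trans (mul_le_mul_of_nonneg_left ?_ hc.le) (hN.low _)
    apply le_of_sq_le_sq _ (norm_nonneg _)
    rw [norm_sq_add j he hj]
    nlinarith [sq_nonneg η]
  have low0 : ∀ y : U, c * ‖y‖ ≤ N (j y) := fun y => by simpa using low y 0
  have ex0 : ∀ y : U, Real.exp (-N (j y)) ≤ Real.exp (-(c * ‖y‖)) := fun y =>
    Real.exp_le_exp.mpr (neg_le_neg (low0 y))
  have he' : ‖-e‖ ≤ 1 := by rw [norm_neg, he]
  have mal : Measurable fun y : U => al up e (j y) :=
    (((hm e).sub (hm (-e))).div_const 2).comp hjc.measurable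
  have mbe : Measurable fun y : U => be up e (j y) :=
    (((hm e).add (hm (-e))).div_const 2).comp hjc.measurable
  have mD : Measurable fun y : U => Real.exp (-N (j y)) := Continuous.measurable (by fun_prop)
  have iw : ∀ w : U → ℝ, Measurable w → (∀ y, |w y| ≤ L) →
      Integrable (fun y => ‖y‖ * |w y * Real.exp (-N (j y))|) ν := by
    intro w hw hb
    refine ((exp_int ν hc2).const_mul (L * (4 / c))).mono'
      (measurable_norm.mul (hw.mul mD).abs).aestronglyMeasurable
      (Eventually.of_forall fun y => ?_)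
    rw [Real.norm_of_nonneg (by positivity), abs_mul, abs_of_pos (Real.exp_pos _)]
    calc ‖y‖ * (|w y| * Real.exp (-N (j y))) ≤ ‖y‖ * (L * Real.exp (-(c * ‖y‖))) := by
          gcongr
          · exact hb y
          · exact low0 y
      _ = L * (‖y‖ * Real.exp (-(c * ‖y‖))) := by ring
      _ ≤ L * (4 / c * Real.exp (-(c / 2 * ‖y‖))) :=
          mul_le_mul_of_nonneg_left (lin_exp hc (norm_nonneg y)).1 hL0
      _ = _ := by ring
  have iD : ∀ b : U → ℝ, Continuous b →
      Integrable (fun y => Real.exp (-N (j y + b y • e))) ν := fun b hb =>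
    (exp_int ν hc).mono' (Continuous.aestronglyMeasurable (by fun_prop))
      (Eventually.of_forall fun y => by
        rw [Real.norm_of_nonneg (Real.exp_pos _).le]
        exact Real.exp_le_exp.mpr (neg_le_neg (low y _)))
  -- slabs
  set lf : E × E → U →ₗ[ℝ] ℝ := fun p => (innerₗ E (p.1 - p.2)).comp j.toLinearMap with hlf
  have hlf' : ∀ p y, lf p y = inner ℝ (p.1 - p.2) (j y) := fun p y => rfl
  have hsl : ∀ p : E × E, ∃ C' : ℝ, 0 ≤ C' ∧ (lf p ≠ 0 → ∀ r : ℝ, 0 < r →
      ∫ y, {y : U | |lf p y| ≤ r * ‖y‖}.indicator (fun y => Real.exp (-(c / 2 * ‖y‖))) y ∂ν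
        ≤ C' * r) := by
    intro p
    by_cases hp : lf p = 0
    · exact ⟨0, le_rfl, fun h' => absurd hp h'⟩
    · obtain ⟨C', h1, h2⟩ := slab ν hc2 (lf p) hp
      exact ⟨C', h1, fun _ => h2⟩
  choose Cs hCs0 hCs using hsl
  set P := (A ×ˢ A).filter fun p => lf p ≠ 0 with hP
  set W := ∫ y : U, Real.exp (-(c / 2 * ‖y‖)) ∂ν with hW
  have hW0 : 0 ≤ W := integral_nonneg fun y => (Real.exp_pos _).le
  have hS0 : 0 ≤ ∑ p ∈ P, Cs p := Finset.sum_nonneg fun p _ => hCs0 p
  refine ⟨L ^ 2 * (16 / c ^ 2) * W + 2 * L * (4 / c) * ((∑ p ∈ P, Cs p) * (2 * L + 1)),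
    by fun_prop, iD, ?_, mal.mul mD, mbe.mul mD, iw _ mal fun y => ?_, iw _ mbe fun y => ?_,
    by positivity, fun τ hτ => ?_⟩
  · refine (integral_pos_iff_support_of_nonneg (fun y => (Real.exp_pos _).le)
      (iD (fun _ => 0) continuous_const)).mpr ?_
    have : Function.support (fun y : U => Real.exp (-N (j y + (0 : ℝ) • e))) = univ :=
      eq_univ_of_forall fun y => (Real.exp_pos _).ne'
    rw [this]
    exact isOpen_univ.measure_pos ν univ_nonempty
  · have h1 := abs_le.mp (u.bd hL he.le (j y))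
    have h2 := abs_le.mp (u.bd hL he' (j y))
    unfold al
    rw [abs_le]
    constructor <;> linarith [h1.1, h1.2, h2.1, h2.2]
  · have h1 := abs_le.mp (u.bd hL he.le (j y))
    have h2 := abs_le.mp (u.bd hL he' (j y))
    unfold be
    rw [abs_le]
    constructor <;> linarith [h1.1, h1.2, h2.1, h2.2]
  have hr : 0 < (2 * L + 1) * τ := by positivity
  set I : E × E → U → ℝ := fun p =>
    {y : U | |lf p y| ≤ (2 * L + 1) * τ * ‖y‖}.indicator fun y => Real.exp (-(c / 2 * ‖y‖)) with hI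
  have iI : ∀ p, Integrable (I p) ν := fun p => by
    have hlc : Continuous (lf p) := (lf p).continuous_of_finiteDimensional
    exact (exp_int ν hc2).indicator (isClosed_le (by fun_prop) (by fun_prop)).measurableSet
  have I0 : ∀ p y, 0 ≤ I p y := fun p y => indicator_nonneg (fun _ _ => (Real.exp_pos _).le) y
  have iS : Integrable (fun y => ∑ p ∈ P, I p y) ν := integrable_finsetSum _ fun p _ => iI p
  refine ⟨fun y => L ^ 2 * (16 / c ^ 2) * τ ^ 2 * Real.exp (-(c / 2 * ‖y‖)) +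
    2 * L * (4 / c) * τ * ∑ p ∈ P, I p y, ((exp_int ν hc2).const_mul _).add (iS.const_mul _),
    ?_, fun y η hη => ?_⟩
  · rw [integral_add ((exp_int ν hc2).const_mul _) (iS.const_mul _), integral_const_mul,
      integral_const_mul, integral_finsetSum _ fun p _ => iI p]
    have h1 : ∑ p ∈ P, ∫ y, I p y ∂ν ≤ (∑ p ∈ P, Cs p) * ((2 * L + 1) * τ) := by
      rw [Finset.sum_mul]
      exact Finset.sum_le_sum fun p hp => hCs p (Finset.mem_filter.mp hp).2 _ hr
    have h2 := mul_le_mul_of_nonneg_left h1 (show 0 ≤ 2 * L * (4 / c) * τ by positivity)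
    rw [← hW]
    nlinarith
  · obtain ⟨s1, s2, s3⟩ := step2 u h hL he (j y) η
    have t1 := exp_taylor (low y η) (low0 y)
    simp only [zero_smul, add_zero]
    set X := N (j y + η • e) - N (j y) with hX
    set σ := η * al up e (j y) + |η| * be up e (j y) with hσ
    have hy := norm_nonneg y
    have l1 := lin_exp hc hy
    have e0 := Real.exp_pos (-(c * ‖y‖))
    have b1 : X ^ 2 * Real.exp (-(c * ‖y‖)) ≤
        L ^ 2 * (16 / c ^ 2) * τ ^ 2 * Real.exp (-(c / 2 * ‖y‖)) := by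
      have h1 : |X| ≤ L * (τ * ‖y‖) := le_trans s1 (mul_le_mul_of_nonneg_left hη hL0)
      calc X ^ 2 * Real.exp (-(c * ‖y‖)) ≤ (L * (τ * ‖y‖)) ^ 2 * Real.exp (-(c * ‖y‖)) := by
            rw [← sq_abs X]; gcongr
        _ = L ^ 2 * τ ^ 2 * (‖y‖ ^ 2 * Real.exp (-(c * ‖y‖))) := by ring
        _ ≤ L ^ 2 * τ ^ 2 * (16 / c ^ 2 * Real.exp (-(c / 2 * ‖y‖))) :=
            mul_le_mul_of_nonneg_left l1.2 (by positivity)
        _ = _ := by ring
    have b2 : |(σ - X) * Real.exp (-N (j y))| ≤ 2 * L * (4 / c) * τ * ∑ p ∈ P, I p y := by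
      have hs0 : 0 ≤ ∑ p ∈ P, I p y := Finset.sum_nonneg fun p _ => I0 p y
      rcases s3 with s3 | ⟨a, ha, a', ha', k1, k2⟩
      · rw [s3, sub_self, zero_mul, abs_zero]
        positivity
      · have hp : (a, a') ∈ P := Finset.mem_filter.mpr ⟨by simp [ha, ha'], fun h0 => by
          have := hlf' (a, a') y
          rw [h0] at this
          exact k1.ne this⟩
        have h1 : Real.exp (-(c / 2 * ‖y‖)) ≤ ∑ p ∈ P, I p y := by
          refine le_trans (le_of_eq ?_) (Finset.single_le_sum (fun p _ => I0 p y) hp)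
          refine (indicator_of_mem (s := {y : U | |lf (a, a') y| ≤ (2 * L + 1) * τ * ‖y‖}) ?_
            fun y => Real.exp (-(c / 2 * ‖y‖))).symm
          simp only [mem_ofPred_eq, hlf']
          rw [abs_of_pos k1]
          have := mul_le_mul_of_nonneg_left hη (show 0 ≤ 2 * L by positivity)
          nlinarith [mul_nonneg hτ.le hy]
        have h2 : |σ - X| ≤ 2 * L * (τ * ‖y‖) := by
          have := mul_le_mul_of_nonneg_left hη hL0
          linarith [abs_sub σ X]
        rw [abs_mul, abs_of_pos (Real.exp_pos _)]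
        calc |σ - X| * Real.exp (-N (j y)) ≤ 2 * L * (τ * ‖y‖) * Real.exp (-(c * ‖y‖)) :=
              mul_le_mul h2 (ex0 y) (Real.exp_pos _).le (by positivity)
          _ = 2 * L * τ * (‖y‖ * Real.exp (-(c * ‖y‖))) := by ring
          _ ≤ 2 * L * τ * (4 / c * Real.exp (-(c / 2 * ‖y‖))) :=
              mul_le_mul_of_nonneg_left l1.1 (by positivity)
          _ ≤ 2 * L * τ * (4 / c * ∑ p ∈ P, I p y) := by gcongr
          _ = _ := by ring
    have e1 : Real.exp (-N (j y + η • e)) - Real.exp (-N (j y)) +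
        η * (al up e (j y) * Real.exp (-N (j y))) + |η| * (be up e (j y) * Real.exp (-N (j y))) =
        (Real.exp (-N (j y + η • e)) - Real.exp (-N (j y)) + X * Real.exp (-N (j y))) +
          (σ - X) * Real.exp (-N (j y)) := by rw [hσ]; ring
    rw [e1]
    exact le_trans (abs_add_le _ _) (add_le_add (le_trans t1 b1) b2)

theorem not_bad [FiniteDimensional ℝ E] (h : IsMax A N) (hN : IsNrm N c C)
    (j : U →ₗᵢ[ℝ] E) {e : E} (he : ‖e‖ = 1) (hj : ∀ y, inner ℝ e (j y) = 0)
    (hsurj : ∀ x, inner ℝ e x = 0 → ∃ y, j y = x) (hd : 2 ≤ finrank ℝ U) {x₀ a₁ a₂ : E}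
    (hx₀ : inner ℝ e x₀ = (0 : ℝ)) (hx0 : x₀ ≠ 0) (h1 : a₁ ∈ A) (h2 : a₂ ∈ A)
    (e1 : inner ℝ a₁ x₀ = N x₀) (e2 : inner ℝ a₂ x₀ = N x₀)
    (hlt : inner ℝ a₂ e < inner ℝ a₁ e)
    (hall : ∀ a ∈ A, inner ℝ a x₀ = N x₀ → ∃ s : ℝ, a = a₁ + s • e) :
    ¬ Bad (finrank ℝ U) {x | N x ≤ 1} := by
  rintro ⟨μ, hμ, hμs, hμe⟩
  set ν : Measure U := Measure.hausdorffMeasure (finrank ℝ U) with hν
  obtain ⟨L, hL⟩ : ∃ L : ℝ, ∀ a ∈ A, ‖a‖ ≤ L := by
    obtain ⟨L, hL⟩ := (A.finite_toSet.image fun a => ‖a‖).bddAbove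
    exact ⟨L, fun a ha => hL ⟨a, ha, rfl⟩⟩
  obtain ⟨up, u, hm⟩ := exists_up h hN.continuous hL
  obtain ⟨K₀, g⟩ := poly_exp ν u h hm hL hN j he hj
  obtain ⟨y₀, rfl⟩ := hsurj x₀ hx₀
  obtain ⟨r, hr, hnear⟩ := h.near h1 e1 hall
  have he' : ‖-e‖ ≤ 1 := by rw [norm_neg, he]
  have hv0 : ∀ y : U, 0 ≤ be up e (j y) * Real.exp (-N (j y)) := fun y =>
    mul_nonneg (be_nonneg u h _ _) (Real.exp_pos _).le
  have hgi : ∀ y, inner ℝ (LinearMap.adjoint j.toLinearMap a₁) y = inner ℝ a₁ (j y) := fun y =>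
    LinearMap.adjoint_inner_left j.toLinearMap y a₁
  obtain ⟨w₁, w₂, n1, n2, hP⟩ := nonHilb (ν := ν)
    (v := fun y => be up e (j y) * Real.exp (-N (j y))) hd g.mv hv0
    (fun y => by
      simp only [map_neg, h.N_neg, be, u.neg h he.le, u.neg h he', neg_neg, add_comm])
    (g.iv.congr (Eventually.of_forall fun y => by simp only [abs_of_nonneg (hv0 y)]))
    (g := LinearMap.adjoint j.toLinearMap a₁) (y₀ := y₀) (β := be up e (j y₀)) (r := r)
    (by
      have k1 := u.ge e _ a₁ h1 e1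
      have k2 := u.ge (-e) _ a₂ h2 e2
      rw [inner_neg_right] at k2
      unfold be
      linarith) hr
    (by
      rw [hgi, e1]
      exact lt_of_lt_of_le (mul_pos hN.cpos (norm_pos_iff.mpr hx0)) (hN.low _))
    (fun y hy t ht => by
      obtain ⟨k1, k2⟩ := hnear (j y) (by rwa [← map_sub, j.norm_map]) (hj y) t ht
      simp only [map_smul, hgi, k1, be]
      rw [u.congr he.le k2, u.congr he' k2])
  have hb : ∀ a : U, ‖a‖ ≤ 1 → ∀ y, |inner ℝ a y| ≤ ‖y‖ := by
    intro a ha y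
    have := abs_real_inner_le_norm a y
    nlinarith [norm_nonneg y]
  set γ := Real.Gamma (finrank ℝ U / 1 + 1) with hγdef
  have hγ : 0 < γ := Real.Gamma_pos_of_pos (by positivity)
  refine coreP g (p := fun y => inner ℝ w₁ y) (q := fun y => inner ℝ w₂ y) (by fun_prop)
    (by fun_prop) (hb w₁ n1) (hb w₂ n2) hγ
    (by simpa only [Phi, Ph, inner_add_left, inner_sub_left] using hP) μ
    (fun v => inner ℝ e v) (fun v => inner ℝ (j w₁) v) (fun v => inner ℝ (j w₂) v)
    (by fun_prop) (by fun_prop) (by fun_prop) (int_inner hμs _) (int_inner hμs _)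
    (int_inner hμs _) fun α β _ _ => ?_
  set w : U := α • w₁ + β • w₂ with hw
  have hee : inner ℝ e e = (1 : ℝ) := by rw [real_inner_self_eq_norm_sq, he]; norm_num
  have hJ : 0 < ‖e - j w‖ := by
    rw [norm_pos_iff]
    intro h
    have : inner ℝ e (e - j w) = (1 : ℝ) := by rw [inner_sub_right, hj, hee, sub_zero]
    rw [h, inner_zero_right] at this
    exact zero_ne_one this
  have hu := hμe (‖e - j w‖⁻¹ • (e - j w)) (by
    rw [norm_smul, norm_inv, norm_norm, inv_mul_cancel₀ hJ.ne'])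
  have f1 : {x | inner ℝ (‖e - j w‖⁻¹ • (e - j w)) x = 0} = {x | inner ℝ (e - j w) x = 0} := by
    ext x
    simp only [mem_ofPred_eq, real_inner_smul_left, mul_eq_zero, inv_eq_zero, hJ.ne', false_or]
  have f2 : ∫ v, |inner ℝ (‖e - j w‖⁻¹ • (e - j w)) v| ∂μ = ‖e - j w‖⁻¹ *
      ∫ v, |inner ℝ e v - (α * inner ℝ (j w₁) v + β * inner ℝ (j w₂) v)| ∂μ := by
    rw [← integral_const_mul]
    congr 1
    funext v
    rw [real_inner_smul_left, abs_mul, abs_of_pos (inv_pos.2 hJ), inner_sub_left, hw, map_add,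
      map_smul, map_smul, inner_add_left, real_inner_smul_left, real_inner_smul_left]
  rw [f1, f2, section_eq j he hj hsurj, LinearMap.hausdorffMeasure_image, normDet_Tm j he hj,
    ENNReal.toReal_mul, ENNReal.toReal_ofReal hJ.le] at hu
  have : Nontrivial U := Module.nontrivial_of_finrank_pos (R := ℝ) (by omega)
  have q1 : N (Tm j e w 0) = 0 := by simp [hN.zero]
  have q2 : ∀ x, N (Tm j e w (-x)) = N (Tm j e w x) := fun x => by simp [hN.neg]
  have q3 : ∀ x y, N (Tm j e w (x + y)) ≤ N (Tm j e w x) + N (Tm j e w y) := fun x y => by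
    simpa using hN.add _ _
  have q4 : ∀ {x}, N (Tm j e w x) = 0 → x = 0 := fun {x} hx => by
    have := Tm_low j he hj w x
    rw [hN.eq_zero hx, norm_zero] at this
    exact norm_le_zero_iff.1 this
  have q5 : ∀ (r : ℝ) x, N (Tm j e w (r • x)) ≤ |r| * N (Tm j e w x) := fun r x => by
    simpa using hN.smul r _
  have m1 := measure_lt_one_eq_integral_div_gamma ν (g := fun y => N (Tm j e w y))
    q1 q2 q3 q4 q5 (p := 1) one_pos
  rw [← measure_le_eq_lt ν (g := fun y => N (Tm j e w y)) q1 q2 q3 q4 q5] at m1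
  have m2 : Tm j e w ⁻¹' {x | N x ≤ 1} = {y | N (Tm j e w y) ≤ 1} := rfl
  have m3 : ∀ y, Real.exp (-N (Tm j e w y) ^ (1 : ℝ)) =
      Real.exp (-N (j y + (α * inner ℝ w₁ y + β * inner ℝ w₂ y) • e)) := fun y => by
    rw [Real.rpow_one, Tm_apply, hw, inner_add_left, real_inner_smul_left, real_inner_smul_left]
  simp only [m3] at m1
  rw [m2, m1, ENNReal.toReal_ofReal
    (div_nonneg (integral_nonneg fun y => (Real.exp_pos _).le) hγ.le)] at hu
  field_simp at hu
  linarith

theorem poly_main (n : ℕ) (hn : 3 ≤ n) (A : Finset (EuclideanSpace ℝ (Fin n)))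
    (hb : Bornology.IsBounded {x : EuclideanSpace ℝ (Fin n) | ∀ a ∈ A, |inner ℝ a x| ≤ 1}) :
    ¬ Bad ((n - 1 : ℕ) : ℝ) {x : EuclideanSpace ℝ (Fin n) | ∀ a ∈ A, |inner ℝ a x| ≤ 1} := by
  classical
  set A' := insert 0 (A ∪ A.image fun a => -a) with hA'
  have hne : A'.Nonempty := Finset.insert_nonempty _ _
  set N : EuclideanSpace ℝ (Fin n) → ℝ := fun x => A'.sup' hne fun a => inner ℝ a x with hNdef
  have h : IsMax A' N := ⟨fun a ha x => Finset.le_sup' (fun a => inner ℝ a x) ha,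
    fun x => by
      obtain ⟨a, ha, ea⟩ := Finset.exists_mem_eq_sup' hne fun a => (inner ℝ a x : ℝ)
      exact ⟨a, ha, ea.symm⟩,
    fun a ha => by
      simp only [hA', Finset.mem_insert, Finset.mem_union, Finset.mem_image] at ha ⊢
      rcases ha with rfl | ha | ⟨b, hb, rfl⟩
      · exact Or.inl neg_zero
      · exact Or.inr (Or.inr ⟨a, ha, rfl⟩)
      · exact Or.inr (Or.inl (by simpa using hb))⟩
  have hK : ∀ x (t : ℝ), 0 ≤ t → (N x ≤ t ↔ ∀ a ∈ A, |inner ℝ a x| ≤ t) := by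
    intro x t ht
    constructor
    · intro hx a ha
      have ha' : a ∈ A' := by simp [hA', ha]
      have k1 := h.le a ha' x
      have k2 := h.le _ (h.neg a ha') x
      rw [inner_neg_left] at k2
      exact abs_le.mpr ⟨by linarith, by linarith⟩
    · intro hx
      obtain ⟨a, ha, ea⟩ := h.ex x
      rw [← ea]
      simp only [hA', Finset.mem_insert, Finset.mem_union, Finset.mem_image] at ha
      rcases ha with rfl | ha | ⟨b, hb, rfl⟩
      · simpa using ht
      · exact (abs_le.mp (hx a ha)).2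
      · rw [inner_neg_left]
        linarith [(abs_le.mp (hx b hb)).1]
  have hN0 : ∀ x, 0 ≤ N x := fun x => by simpa using h.le 0 (Finset.mem_insert_self _ _) x
  obtain ⟨L, hL⟩ : ∃ L : ℝ, ∀ a ∈ A', ‖a‖ ≤ L := by
    obtain ⟨L, hL⟩ := (A'.finite_toSet.image fun a => ‖a‖).bddAbove
    exact ⟨L, fun a ha => hL ⟨a, ha, rfl⟩⟩
  obtain ⟨R, hR0, hR⟩ := hb.exists_pos_norm_le
  have hsm : ∀ (r : ℝ) x, N (r • x) ≤ |r| * N x := fun r x =>
    (hK _ _ (mul_nonneg (abs_nonneg r) (hN0 x))).mpr fun a ha => by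
      rw [real_inner_smul_right, abs_mul]
      exact mul_le_mul_of_nonneg_left ((hK x _ (hN0 x)).mp le_rfl a ha) (abs_nonneg r)
  have hN : IsNrm N R⁻¹ L := ⟨inv_pos.mpr hR0,
    fun x y => by
      obtain ⟨a, ha, ea⟩ := h.ex (x + y)
      rw [← ea, inner_add_right]
      exact add_le_add (h.le a ha x) (h.le a ha y),
    hsm,
    fun x => by
      refine le_of_forall_pos_le_add fun ε hε => ?_
      have ht : 0 < N x + ε := by linarith [hN0 x]
      have k1 := hR ((N x + ε)⁻¹ • x) ((hK _ 1 zero_le_one).mp (le_trans (hsm _ _) (by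
        rw [abs_of_pos (inv_pos.mpr ht), inv_mul_le_iff₀ ht]; linarith)))
      rw [norm_smul, Real.norm_of_nonneg (inv_pos.mpr ht).le, inv_mul_le_iff₀ ht] at k1
      rw [inv_mul_le_iff₀ hR0]
      linarith,
    fun x => by
      obtain ⟨a, ha, ea⟩ := h.ex x
      rw [← ea]
      exact le_trans (real_inner_le_norm a x)
        (mul_le_mul_of_nonneg_right (hL a ha) (norm_nonneg x))⟩
  obtain ⟨e, x₀, a₁, a₂, he, hx₀, hx0, h1, h2, e1, e2, hlt, hall⟩ := ridge h
    (fun x hx => lt_of_lt_of_le (mul_pos hN.cpos (norm_pos_iff.mpr hx)) (hN.low x))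
    (by simp; omega)
  have he0 : e ≠ 0 := by
    intro h
    rw [h, norm_zero] at he
    exact zero_ne_one he
  have hd : finrank ℝ (ℝ ∙ e)ᗮ = n - 1 := by
    have a1 := Submodule.finrank_add_finrank_orthogonal (ℝ ∙ e)
    rw [finrank_span_singleton he0, finrank_euclideanSpace_fin] at a1
    omega
  have key := not_bad (U := (ℝ ∙ e)ᗮ) h hN (ℝ ∙ e)ᗮ.subtypeₗᵢ he
    (fun y => Submodule.mem_orthogonal_singleton_iff_inner_right.1 y.2)
    (fun x hx => ⟨⟨x, Submodule.mem_orthogonal_singleton_iff_inner_right.2 hx⟩, rfl⟩)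
    (by omega) hx₀ hx0 h1 h2 e1 e2 hlt hall
  rw [hd] at key
  have hS : {x : EuclideanSpace ℝ (Fin n) | ∀ a ∈ A, |inner ℝ a x| ≤ 1} = {x | N x ≤ 1} :=
    Set.ext fun x => (hK x 1 zero_le_one).symm
  rwa [hS]

omit [MeasurableSpace E] [BorelSpace E] in
/-- A symmetric polytope with interior points is cut out by finitely many slabs. -/
theorem hull_eq [FiniteDimensional ℝ E] (V : Finset E)
    (hs : ∀ x ∈ convexHull ℝ (V : Set E), -x ∈ convexHull ℝ (V : Set E))
    (hi : (interior (convexHull ℝ (V : Set E))).Nonempty) :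
    ∃ A : Finset E, convexHull ℝ (V : Set E) = {x | ∀ a ∈ A, |inner ℝ a x| ≤ 1} := by
  classical
  set K := convexHull ℝ (V : Set E) with hK
  have hKc : Convex ℝ K := convex_convexHull ℝ _
  have h0 : (0 : E) ∈ interior K := by
    obtain ⟨x, hx⟩ := hi
    have := hKc.combo_interior_self_mem_interior hx (hs x (interior_subset hx))
      (a := 1 / 2) (b := 1 / 2) (by norm_num) (by norm_num) (by norm_num)
    simpa using this
  set P : Set E := {a | ∀ v ∈ V, inner ℝ a v ≤ (1 : ℝ)} with hP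
  have hPK : ∀ a ∈ P, ∀ x ∈ K, inner ℝ a x ≤ (1 : ℝ) := fun a ha x hx =>
    convexHull_min (t := {x | inner ℝ a x ≤ (1 : ℝ)}) (fun v hv => ha v hv)
      (convex_halfSpace_le (innerₗ E a).isLinear 1) hx
  have hhalf : ∀ x : E, Convex ℝ {a : E | inner ℝ a x ≤ (1 : ℝ)} := fun x => by
    simp only [real_inner_comm x]
    exact convex_halfSpace_le (innerₗ E x).isLinear (1 : ℝ)
  have hPe : P = ⋂ v ∈ V, {a : E | inner ℝ a v ≤ (1 : ℝ)} := by
    ext a
    simp [hP]
  have hPconv : Convex ℝ P := by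
    rw [hPe]
    exact convex_iInter₂ fun v _ => hhalf v
  have hPcomp : IsCompact P := by
    refine Metric.isCompact_of_isClosed_isBounded ?_ ?_
    · rw [hPe]
      exact isClosed_biInter fun v _ => isClosed_le (by fun_prop) continuous_const
    · obtain ⟨ρ, hρ, hb⟩ := Metric.mem_nhds_iff.mp (mem_interior_iff_mem_nhds.mp h0)
      refine isBounded_iff_forall_norm_le.mpr ⟨2 / ρ, fun a ha => ?_⟩
      by_cases ha0 : a = 0
      · rw [ha0, norm_zero]; positivity
      have hn : 0 < ‖a‖ := norm_pos_iff.mpr ha0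
      have h1 := hPK a ha ((ρ / (2 * ‖a‖)) • a) (hb (by
        rw [mem_ball_zero_iff, norm_smul, Real.norm_of_nonneg (by positivity)]
        have : ρ / (2 * ‖a‖) * ‖a‖ = ρ / 2 := by field_simp
        linarith))
      rw [real_inner_smul_right, real_inner_self_eq_norm_sq] at h1
      have h2 : ρ / (2 * ‖a‖) * ‖a‖ ^ 2 = ρ * ‖a‖ / 2 := by field_simp
      rw [le_div_iff₀ hρ]
      linarith
  have hfin : (P.extremePoints ℝ).Finite := by
    refine Set.Finite.of_finite_image (f := fun a => V.filter fun v => inner ℝ a v = (1 : ℝ))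
      (V.powerset.finite_toSet.subset ?_) fun a ha a' ha' he => ?_
    · rintro _ ⟨a, -, rfl⟩
      exact Finset.mem_coe.mpr (Finset.mem_powerset.mpr (Finset.filter_subset _ _))
    · have hact : ∀ v ∈ V, inner ℝ a v = (1 : ℝ) → inner ℝ a' v = (1 : ℝ) := fun v hv h1 => by
        have h2 : v ∈ V.filter fun v => inner ℝ a v = (1 : ℝ) := Finset.mem_filter.mpr ⟨hv, h1⟩
        simp only at he
        rw [he] at h2
        exact (Finset.mem_filter.mp h2).2
      have hev : ∀ᶠ ε : ℝ in 𝓝 0, ∀ v ∈ V, inner ℝ (a - ε • (a' - a)) v ≤ (1 : ℝ) := by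
        rw [Finset.eventually_all]
        intro v hv
        by_cases h1 : inner ℝ a v = (1 : ℝ)
        · refine Eventually.of_forall fun ε => ?_
          rw [inner_sub_left, real_inner_smul_left, inner_sub_left, h1, hact v hv h1]
          simp
        · have : ∀ᶠ ε : ℝ in 𝓝 0, inner ℝ (a - ε • (a' - a)) v < (1 : ℝ) :=
            ContinuousAt.eventually_lt (by fun_prop) continuousAt_const
              (by simpa using lt_of_le_of_ne (ha.1 v hv) h1)
          exact this.mono fun ε h => h.le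
      have a4 : ∀ᶠ ε : ℝ in 𝓝[>] 0, 0 < ε := self_mem_nhdsWithin
      obtain ⟨ε, b4, b1⟩ := (a4.and (hev.filter_mono nhdsWithin_le_nhds)).exists
      refine ((mem_extremePoints.mp ha).2 a' ha'.1 (a - ε • (a' - a)) b1
        ⟨ε / (1 + ε), 1 / (1 + ε), by positivity, by positivity, by field_simp; ring, ?_⟩).1.symm
      have h3 : (1 + ε) ≠ 0 := by positivity
      match_scalars <;> field_simp <;> ring
  refine ⟨hfin.toFinset, Set.ext fun x => ⟨fun hx a ha => ?_, fun hx => ?_⟩⟩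
  · have ha' : a ∈ P := ((hfin.mem_toFinset).mp ha).1
    have h1 := hPK a ha' x hx
    have h2 := hPK a ha' _ (hs x hx)
    rw [inner_neg_right] at h2
    exact abs_le.mpr ⟨by linarith, h1⟩
  · by_contra hxK
    obtain ⟨f, t, hf, ht⟩ := geometric_hahn_banach_closed_point hKc
      (V.finite_toSet.isCompact_convexHull ℝ).isClosed hxK
    have ht0 : 0 < t := by simpa using hf 0 (interior_subset h0)
    have hin : ∀ y, inner ℝ (t⁻¹ • (InnerProductSpace.toDual ℝ E).symm f) y = t⁻¹ * f y :=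
      fun y => by rw [real_inner_smul_left, InnerProductSpace.toDual_symm_apply]
    have h1 : t⁻¹ • (InnerProductSpace.toDual ℝ E).symm f ∈ P := fun v hv => by
      rw [hin, inv_mul_le_iff₀ ht0, mul_one]
      exact (hf v (subset_convexHull ℝ _ hv)).le
    rw [← closure_convexHull_extremePoints hPcomp hPconv] at h1
    have h2 := closure_minimal (convexHull_min (t := {a : E | inner ℝ a x ≤ (1 : ℝ)})
      (fun a ha => (abs_le.mp (hx a (hfin.mem_toFinset.mpr ha))).2) (hhalf x))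
      (isClosed_le (by fun_prop) continuous_const) h1
    simp only [mem_ofPred_eq, hin] at h2
    rw [inv_mul_le_iff₀ ht0, mul_one] at h2
    linarith

end Pool.Agent.MP_2c685a_gt.Po
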