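import Mathlib

/-! Uniqueness for the cosine transform, in the form of integrals over symmetric cones. -/

set_option autoImplicit false

open MeasureTheory Set
open scoped ENNReal

namespace Pool.Agent.MP_2c685a_gt.Po

/-- the radial measure -/
noncomputable def rho : Measure ℝ := volume.withDensity fun t => ENNReal.ofReal (t ^ 2)⁻¹

instance : SFinite rho := by unfold rho; infer_instance

/-- one minus cosine -/
noncomputable def oc (s : ℝ) : ℝ≥0∞ := ENNReal.ofReal (1 - Real.cos s)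

lemma oc_meas : Measurable oc := by unfold oc; fun_prop

lemma oc_zero : oc 0 = 0 := by simp [oc]

lemma rho_int {g : ℝ → ℝ≥0∞} (hg : Measurable g) :
    ∫⁻ t, g t ∂rho = ∫⁻ t, ENNReal.ofReal (t ^ 2)⁻¹ * g t := by
  unfold rho
  rw [lintegral_withDensity_eq_lintegral_mul _ (by fun_prop) hg]
  rfl

lemma rho_neg {g : ℝ → ℝ≥0∞} (hg : Measurable g) : ∫⁻ t, g (-t) ∂rho = ∫⁻ t, g t ∂rho := by
  rw [rho_int hg, rho_int (g := fun t => g (-t)) (hg.comp measurable_neg),
    ← lintegral_neg_eq_self (fun t : ℝ => ENNReal.ofReal (t ^ 2)⁻¹ * g t)]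
  simp

/-- the normalising constant -/
noncomputable def c0 : ℝ≥0∞ := ∫⁻ t, oc t ∂rho

lemma scal (s : ℝ) : ∫⁻ t, oc (t * s) ∂rho = ‖s‖ₑ * c0 := by
  by_cases hs : s = 0
  · simp [hs, oc_zero]
  have hF : Measurable fun t : ℝ => ENNReal.ofReal (t ^ 2)⁻¹ * oc t :=
    Measurable.mul (by fun_prop) oc_meas
  have h1 := lintegral_map (μ := volume) hF (measurable_mul_const s)
  rw [Real.map_volume_mul_right hs, lintegral_smul_measure, ← rho_int oc_meas] at h1
  rw [rho_int (g := fun t => oc (t * s)) (oc_meas.comp (measurable_mul_const s))]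
  have h2 : ∀ t : ℝ, ENNReal.ofReal (t ^ 2)⁻¹ * oc (t * s) =
      ENNReal.ofReal (s ^ 2) * (ENNReal.ofReal ((t * s) ^ 2)⁻¹ * oc (t * s)) := by
    intro t
    rw [← mul_assoc, ← ENNReal.ofReal_mul (sq_nonneg s)]
    congr 2
    rw [mul_pow, mul_inv]
    field_simp
  simp_rw [h2]
  rw [lintegral_const_mul' _ _ ENNReal.ofReal_ne_top, ← h1, smul_eq_mul, ← mul_assoc,
    ← ENNReal.ofReal_mul (sq_nonneg s), Real.enorm_eq_ofReal_abs]
  congr 2
  rw [abs_inv, ← sq_abs]
  have : |s| ≠ 0 := abs_ne_zero.mpr hs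
  field_simp

lemma c0_ne_top : c0 ≠ ⊤ := by
  unfold c0
  rw [rho_int oc_meas]
  have h := (integrable_inv_one_add_sq.const_mul 4).lintegral_lt_top
  refine ne_top_of_le_ne_top h.ne (lintegral_mono fun t => ?_)
  simp only [oc]
  rw [← ENNReal.ofReal_mul (by positivity)]
  apply ENNReal.ofReal_le_ofReal
  by_cases ht : t = 0
  · simp [ht]
  have h1 := Real.one_sub_sq_div_two_le_cos (x := t)
  have h2 := Real.neg_one_le_cos t
  have h3 : 0 < t ^ 2 := by positivity
  rw [← div_eq_inv_mul, ← div_eq_mul_inv, div_le_div_iff₀ h3 (by positivity)]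
  nlinarith

lemma c0_ne_zero : c0 ≠ 0 := by
  unfold c0
  rw [rho_int oc_meas]
  intro h
  have hF : Measurable fun t : ℝ => ENNReal.ofReal (t ^ 2)⁻¹ * oc t :=
    Measurable.mul (by fun_prop) oc_meas
  rw [lintegral_eq_zero_iff hF] at h
  have h1 : volume (Ioo (1 : ℝ) 2) = 0 := by
    refine measure_mono_null (fun t ht => ?_) h
    have h2 : Real.cos t < Real.cos 0 :=
      Real.cos_lt_cos_of_nonneg_of_le_pi le_rfl (by linarith [Real.pi_gt_three, ht.2])
        (by linarith [ht.1])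
    rw [Real.cos_zero] at h2
    have h3 : 0 < t := by linarith [ht.1]
    simp only [mem_compl_iff, mem_ofPred_eq, Pi.zero_apply, mul_eq_zero, oc,
      ENNReal.ofReal_eq_zero, not_or, not_le]
    exact ⟨by positivity, by linarith⟩
  norm_num at h1

variable {U : Type*} [NormedAddCommGroup U] [InnerProductSpace ℝ U] [FiniteDimensional ℝ U]
  [MeasurableSpace U] [BorelSpace U]

/-- the homogeneous measure attached to `μ` -/
noncomputable def lam (μ : Measure U) : Measure U :=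
  (μ.prod rho).map fun p : U × ℝ => p.2 • p.1

lemma lam_int (μ : Measure U) [SFinite μ] {f : U → ℝ≥0∞} (hf : Measurable f) :
    ∫⁻ x, f x ∂(lam μ) = ∫⁻ y, ∫⁻ t, f (t • y) ∂rho ∂μ := by
  have hm : Measurable fun p : U × ℝ => p.2 • p.1 := by fun_prop
  unfold lam
  rw [lintegral_map hf hm]
  exact lintegral_prod _ (hf.comp hm).aemeasurable

lemma lam_neg (μ : Measure U) [SFinite μ] : (lam μ).map (fun x => -x) = lam μ := by
  ext S hS
  have hI : Measurable (S.indicator (1 : U → ℝ≥0∞)) := measurable_one.indicator hS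
  rw [← lintegral_indicator_one hS, ← lintegral_indicator_one hS,
    lintegral_map hI measurable_neg, lam_int μ hI,
    lam_int μ (f := fun x => S.indicator 1 (-x)) (hI.comp measurable_neg)]
  refine lintegral_congr fun y => ?_
  rw [← rho_neg (g := fun t => S.indicator (1 : U → ℝ≥0∞) (t • y)) (hI.comp (by fun_prop))]
  simp only [neg_smul]

lemma oc_inner_meas (w : U) : Measurable fun x : U => oc (inner ℝ w x) :=
  oc_meas.comp (by fun_prop)

lemma lam_cone (μ : Measure U) [SFinite μ] {Γ : Set U} (hΓ : MeasurableSet Γ)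
    (hc : ∀ (t : ℝ) (y : U), t ≠ 0 → y ∈ Γ → t • y ∈ Γ) (w : U) :
    ∫⁻ x in Γ, oc (inner ℝ w x) ∂(lam μ) = (∫⁻ y in Γ, ‖inner ℝ w y‖ₑ ∂μ) * c0 := by
  rw [← lintegral_indicator hΓ, lam_int μ ((oc_inner_meas w).indicator hΓ),
    ← lintegral_mul_const' _ _ c0_ne_top, ← lintegral_indicator hΓ]
  refine lintegral_congr fun y => ?_
  by_cases hy : y ∈ Γ
  · rw [indicator_of_mem hy, ← scal]
    refine lintegral_congr fun t => ?_
    by_cases ht : t = 0
    · by_cases h0 : t • y ∈ Γ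
      · rw [indicator_of_mem h0, real_inner_smul_right]
      · rw [indicator_of_notMem h0, ht, zero_mul, oc_zero]
    · rw [indicator_of_mem (hc t y ht hy), real_inner_smul_right]
  · rw [indicator_of_notMem hy]
    refine (lintegral_congr fun t => ?_).trans lintegral_zero
    by_cases ht : t = 0
    · by_cases h0 : t • y ∈ Γ
      · rw [indicator_of_mem h0, real_inner_smul_right, ht, zero_mul, oc_zero]
      · rw [indicator_of_notMem h0]
    · refine indicator_of_notMem (fun h => hy ?_) _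
      have := hc t⁻¹ _ (inv_ne_zero ht) h
      rwa [smul_smul, inv_mul_cancel₀ ht, one_smul] at this

lemma lam_all (μ : Measure U) [SFinite μ] (w : U) :
    ∫⁻ x, oc (inner ℝ w x) ∂(lam μ) = (∫⁻ y, ‖inner ℝ w y‖ₑ ∂μ) * c0 := by
  simpa using lam_cone μ MeasurableSet.univ (fun _ _ _ _ => mem_univ _) w

lemma lam_real (μ : Measure U) [SFinite μ] (h : ∀ w, ∫⁻ y, ‖inner ℝ w y‖ₑ ∂μ ≠ ⊤) (w : U) :
    Integrable (fun x => 1 - Real.cos (inner ℝ w x)) (lam μ) ∧
      ∫ x, (1 - Real.cos (inner ℝ w x)) ∂(lam μ) =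
        ((∫⁻ y, ‖inner ℝ w y‖ₑ ∂μ) * c0).toReal := by
  have h0 : 0 ≤ᵐ[lam μ] fun x => 1 - Real.cos (inner ℝ w x) :=
    Filter.Eventually.of_forall fun x => sub_nonneg.mpr (Real.cos_le_one _)
  have hm : AEStronglyMeasurable (fun x => 1 - Real.cos (inner ℝ w x)) (lam μ) :=
    Continuous.aestronglyMeasurable (by fun_prop)
  constructor
  · refine ⟨hm, (hasFiniteIntegral_iff_ofReal h0).mpr ?_⟩
    have := lam_all μ w
    unfold oc at this
    rw [this]
    exact ENNReal.mul_lt_top (h w).lt_top c0_ne_top.lt_top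
  · rw [integral_eq_lintegral_of_nonneg_ae h0 hm, ← lam_all]
    rfl

lemma char_eq (μ : Measure U) [SFinite μ] (h : ∀ w, ∫⁻ y, ‖inner ℝ w y‖ₑ ∂μ ≠ ⊤) (v w : U) :
    2 * charFun ((lam μ).withDensity fun x => oc (inner ℝ v x)) w =
      ((((∫⁻ y, ‖inner ℝ (w + v) y‖ₑ ∂μ) * c0).toReal +
        ((∫⁻ y, ‖inner ℝ (w - v) y‖ₑ ∂μ) * c0).toReal -
        2 * ((∫⁻ y, ‖inner ℝ w y‖ₑ ∂μ) * c0).toReal : ℝ) : ℂ) := by
  have hn : ∀ x : U, 0 ≤ 1 - Real.cos (inner ℝ v x) :=
    fun x => sub_nonneg.mpr (Real.cos_le_one _)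
  set F : U → ℂ := fun x => ((1 - Real.cos (inner ℝ v x) : ℝ) : ℂ) *
    Complex.exp ((inner ℝ x w : ℝ) * Complex.I) with hF
  have hFc : Continuous F := by fun_prop
  have e1 : charFun ((lam μ).withDensity fun x => oc (inner ℝ v x)) w = ∫ x, F x ∂(lam μ) := by
    rw [charFun_apply, integral_withDensity_eq_integral_toReal_smul (oc_inner_meas v)
      (Filter.Eventually.of_forall fun x => ENNReal.ofReal_lt_top)]
    refine integral_congr_ae (Filter.Eventually.of_forall fun x => ?_)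
    simp only [oc, ENNReal.toReal_ofReal (hn x), hF, Complex.real_smul]
  have iF : Integrable F (lam μ) := by
    refine (lam_real μ h v).1.mono' hFc.aestronglyMeasurable
      (Filter.Eventually.of_forall fun x => ?_)
    simp only [hF, norm_mul, Complex.norm_exp_ofReal_mul_I, mul_one, Complex.norm_real,
      Real.norm_of_nonneg (hn x), le_refl]
  have e2 : ∫ x, F (-x) ∂(lam μ) = ∫ x, F x ∂(lam μ) := by
    rw [← integral_map measurable_neg.aemeasurable hFc.aestronglyMeasurable, lam_neg]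
  have iF' : Integrable (fun x => F (-x)) (lam μ) := by
    have : Integrable F ((lam μ).map fun x => -x) := by rwa [lam_neg]
    exact this.comp_measurable measurable_neg
  obtain ⟨i1, r1⟩ := lam_real μ h (w + v)
  obtain ⟨i2, r2⟩ := lam_real μ h (w - v)
  obtain ⟨i3, r3⟩ := lam_real μ h w
  have i4 : Integrable (fun x => 1 - Real.cos (inner ℝ (w + v) x) +
      (1 - Real.cos (inner ℝ (w - v) x))) (lam μ) := i1.add i2
  rw [e1, two_mul, ← r1, ← r2, ← r3, ← integral_add i1 i2, ← integral_const_mul,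
    ← integral_sub i4 (i3.const_mul 2), ← integral_complex_ofReal]
  nth_rewrite 1 [← e2]
  rw [← integral_add iF' iF]
  refine integral_congr_ae (Filter.Eventually.of_forall fun x => ?_)
  simp only [hF, inner_neg_left, inner_neg_right, Real.cos_neg, inner_add_left, inner_sub_left,
    Real.cos_add, Real.cos_sub, real_inner_comm w x]
  rw [Complex.exp_mul_I, Complex.exp_mul_I]
  push_cast
  rw [Complex.cos_neg, Complex.sin_neg]
  ring

theorem uniq (μ₁ μ₂ : Measure U) [SFinite μ₁] [SFinite μ₂]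
    (hfin : ∀ w, ∫⁻ y, ‖inner ℝ w y‖ₑ ∂μ₁ ≠ ⊤)
    (heq : ∀ w, ∫⁻ y, ‖inner ℝ w y‖ₑ ∂μ₁ = ∫⁻ y, ‖inner ℝ w y‖ₑ ∂μ₂) {Γ : Set U}
    (hΓ : MeasurableSet Γ) (hc : ∀ (t : ℝ) (y : U), t ≠ 0 → y ∈ Γ → t • y ∈ Γ) (v : U) :
    ∫⁻ y in Γ, ‖inner ℝ v y‖ₑ ∂μ₁ = ∫⁻ y in Γ, ‖inner ℝ v y‖ₑ ∂μ₂ := by
  have hfin2 : ∀ w, ∫⁻ y, ‖inner ℝ w y‖ₑ ∂μ₂ ≠ ⊤ := fun w => heq w ▸ hfin w
  have f1 : IsFiniteMeasure ((lam μ₁).withDensity fun x => oc (inner ℝ v x)) :=
    isFiniteMeasure_withDensity (by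
      rw [lam_all]; exact ENNReal.mul_ne_top (hfin v) c0_ne_top)
  have f2 : IsFiniteMeasure ((lam μ₂).withDensity fun x => oc (inner ℝ v x)) :=
    isFiniteMeasure_withDensity (by
      rw [lam_all]; exact ENNReal.mul_ne_top (hfin2 v) c0_ne_top)
  have e : ((lam μ₁).withDensity fun x => oc (inner ℝ v x)) =
      (lam μ₂).withDensity fun x => oc (inner ℝ v x) := by
    apply Measure.ext_of_charFun
    funext w
    apply mul_left_cancel₀ (two_ne_zero (α := ℂ))
    rw [char_eq μ₁ hfin, char_eq μ₂ hfin2, heq, heq, heq]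
  have e2 := congrArg (fun m : Measure U => m Γ) e
  simp only [withDensity_apply _ hΓ] at e2
  rw [lam_cone μ₁ hΓ hc, lam_cone μ₂ hΓ hc] at e2
  exact (ENNReal.mul_left_inj c0_ne_zero c0_ne_top).mp e2

end Pool.Agent.MP_2c685a_gt.Po
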